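import Pool.Agent.Helper133.CD.Base
import Pool.Agent.Helper133.CD.R1
import Pool.Agent.Helper133.CD.R2
import Pool.Agent.Helper133.CD.Core2
import Pool.Agent.Helper133.CD.DataEx

set_option autoImplicit false

/-!
Heredity of the lifting of derivations: retracts and quotients by topologically idempotent ideals.
-/

namespace Pool.Agent.Y268.GD

open Pool.Agent.Helper133.CD

universe u

section

variable {A B : Type u} [NonUnitalNormedRing A] [NormedSpace ℂ A]
  [NonUnitalNormedRing B] [NormedSpace ℂ B]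

/-- Retracts inherit the lifting of derivations. -/
theorem lifts_retract (i : B →L[ℂ] A) (p : A →L[ℂ] B) (hi : ∀ a b, i (a * b) = i a * i b)
    (hp : ∀ a b, p (a * b) = p a * p b) (hpi : ∀ b, p (i b) = b) (hL : Lifts A) : Lifts B := by
  intro M V Q _ _ _ _ _ _ _ _ _ αM αV αQ hM hV hQ q s hq hs D hD
  obtain ⟨D', S, h1, h2⟩ := hL M V Q (αM.comp p) (αV.comp p) (αQ.comp p)
    (fun a b x => by
      show αM (p (a * b)) x = αM (p a) (αM (p b) x)
      rw [hp, hM])
    (fun a b x => by
      show αV (p (a * b)) x = αV (p a) (αV (p b) x)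
      rw [hp, hV])
    (fun a b x => by
      show αQ (p (a * b)) x = αQ (p a) (αQ (p b) x)
      rw [hp, hQ]) q s
    (fun a y => hq (p a) y) hs (D.comp p)
    (fun a b x => by
      show D (p (a * b)) x = αV (p a) (D (p b) x) + D (p a) (αM (p b) x)
      rw [hp, hD])
  refine ⟨D'.comp i, S, fun a b x => ?_, fun a x => ?_⟩
  · have h3 : D' (i a * i b) x = αQ (p (i a)) (D' (i b) x) + D' (i a) (αM (p (i b)) x) :=
      h1 (i a) (i b) x
    show D' (i (a * b)) x = αQ a (D' (i b) x) + D' (i a) (αM b x)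
    rw [hi, h3, hpi, hpi]
  · have h3 : D (p (i a)) x = q (D' (i a) x) + αV (p (i a)) (S x) - S (αM (p (i a)) x) :=
      h2 (i a) x
    rw [hpi] at h3
    exact h3

/-- Quotients by topologically idempotent ideals inherit the lifting of derivations. -/
theorem lifts_quotient [CompleteSpace A] [CompleteSpace B] (p : A →L[ℂ] B)
    (hp : ∀ a b, p (a * b) = p a * p b) (hs' : Function.Surjective p)
    (hk : ∀ x, p x = 0 → x ∈ closure
      (Submodule.span ℂ {z : A | ∃ a b, p a = 0 ∧ p b = 0 ∧ z = a * b} : Set A))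
    (hL : Lifts A) : Lifts B := by
  intro M V Q _ _ _ _ _ _ _ _ _ αM αV αQ hM hV hQ q s hq hs D hD
  obtain ⟨D', S, h1, h2⟩ := hL M V Q (αM.comp p) (αV.comp p) (αQ.comp p)
    (fun a b x => by
      show αM (p (a * b)) x = αM (p a) (αM (p b) x)
      rw [hp, hM])
    (fun a b x => by
      show αV (p (a * b)) x = αV (p a) (αV (p b) x)
      rw [hp, hV])
    (fun a b x => by
      show αQ (p (a * b)) x = αQ (p a) (αQ (p b) x)
      rw [hp, hQ]) q s
    (fun a y => hq (p a) y) hs (D.comp p)
    (fun a b x => by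
      show D (p (a * b)) x = αV (p a) (D (p b) x) + D (p a) (αM (p b) x)
      rw [hp, hD])
  -- the derivation vanishes on the kernel
  have hsp : Submodule.span ℂ {z : A | ∃ a b, p a = 0 ∧ p b = 0 ∧ z = a * b} ≤
      LinearMap.ker (D' : A →ₗ[ℂ] M →L[ℂ] Q) := by
    refine Submodule.span_le.2 ?_
    rintro _ ⟨a, b, ha, hb, rfl⟩
    show D' (a * b) = 0
    ext x
    have h3 : D' (a * b) x = αQ (p a) (D' b x) + D' a (αM (p b) x) := h1 a b x
    rw [h3, ha, hb, map_zero, map_zero]
    show (0 : Q) + D' a ((0 : M →L[ℂ] M) x) = (0 : Q)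
    rw [ContinuousLinearMap.zero_apply, map_zero, add_zero]
  have hcl : IsClosed (LinearMap.ker (D' : A →ₗ[ℂ] M →L[ℂ] Q) : Set A) := D'.isClosed_ker
  have hD0 : ∀ x, p x = 0 → D' x = 0 := fun x hx => (closure_minimal hsp hcl) (hk x hx)
  have hD1 : ∀ x y, p x = p y → D' x = D' y := fun x y h => by
    rw [← sub_eq_zero, ← map_sub]
    exact hD0 _ (by rw [map_sub, h, sub_self])
  have hsi : ∀ b, p (Function.surjInv hs' b) = b := Function.surjInv_eq hs'
  let L : B →ₗ[ℂ] M →L[ℂ] Q :=
    { toFun := fun b => D' (Function.surjInv hs' b)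
      map_add' := fun a b => by
        rw [← map_add]
        exact hD1 _ _ (by rw [hsi, map_add, hsi, hsi])
      map_smul' := fun c a => by
        rw [RingHom.id_apply, ← map_smul]
        exact hD1 _ _ (by rw [hsi, map_smul, hsi]) }
  have hLp : ∀ a, L (p a) = D' a := fun a => hD1 _ _ (hsi (p a))
  have hLc : Continuous L := by
    have hq' : Topology.IsQuotientMap p := (p.isOpenMap hs').isQuotientMap p.continuous hs'
    rw [hq'.continuous_iff]
    have : (L : B → M →L[ℂ] Q) ∘ p = D' := funext hLp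
    rw [this]
    exact D'.continuous
  refine ⟨⟨L, hLc⟩, S, fun a b x => ?_, fun a x => ?_⟩
  · obtain ⟨a, rfl⟩ := hs' a
    obtain ⟨b, rfl⟩ := hs' b
    show L (p a * p b) x = αQ (p a) (L (p b) x) + L (p a) (αM (p b) x)
    rw [← hp, hLp, hLp, hLp]
    exact h1 a b x
  · obtain ⟨a, rfl⟩ := hs' a
    show D (p a) x = q (L (p a) x) + αV (p a) (S x) - S (αM (p a) x)
    rw [hLp]
    exact h2 a x

end

end Pool.Agent.Y268.GD
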