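import Pool.Agent.W667.BN.A5

set_option autoImplicit false
set_option linter.unusedSectionVars false
set_option linter.deprecated false
set_option maxSynthPendingDepth 3

/-!
Functoriality of the normalized bar resolution of a character, and retracts of Banach algebras.
-/

namespace Pool.Agent.Y268.GD

open Pool.Agent.Helper832.CD Pool.Agent.Helper832.GD Pool.Agent.H817R4.DF Pool.Agent.W667.BN
  Pool.Agent.H203R3.BH Pool.Agent.W667

variable {A : Type} [NormedRing A] [NormedAlgebra ℂ A] [CompleteSpace A]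
variable {B : Type} [NormedRing B] [NormedAlgebra ℂ B] [CompleteSpace B]

/-- A bounded homomorphism (not necessarily unital) which is compatible with given characters. -/
structure Mor (α : Chr A) (β : Chr B) where
  f : A →L[ℂ] B
  mul : ∀ a b, f (a * b) = f a * f b
  aug : ∀ a, β.ε (f a) = α.ε a

variable {α : Chr A} {β : Chr B} (m : Mor α β)

/-- The restriction to the kernels. -/
noncomputable def mJ : JJ α →L[ℂ] JJ β :=
  (m.f.comp (JJ α).subtypeL).codRestrict (JJ β) (fun j => by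
    rw [JJ_mem]
    show β.ε (m.f (j : A)) = 0
    rw [m.aug, ε_coe])

lemma mJ_coe (j : JJ α) : ((mJ m j : JJ β) : B) = m.f (j : A) := rfl

lemma mJ_mulJ (a : A) (j : JJ α) : mJ m (mulJ α a j) = mulJ β (m.f a) (mJ m j) :=
  Subtype.ext (m.mul a _)

/-- The induced operator. -/
noncomputable def tm {E : LMod A} {E' : LMod B} (F : E.carrier →L[ℂ] E'.carrier) :
    (TJ α E).carrier →L[ℂ] (TJ β E').carrier :=
  lJ α E (((ContinuousLinearMap.compL ℂ E.carrier E'.carrier (TJ β E').carrier).flip F).comp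
    ((tJ β E').comp (mJ m)))

lemma tm_tJ {E : LMod A} {E' : LMod B} (F : E.carrier →L[ℂ] E'.carrier) (j : JJ α)
    (x : E.carrier) : tm m F (tJ α E j x) = tJ β E' (mJ m j) (F x) := lJ_tJ α E _ j x

lemma tm_lin {E : LMod A} {E' : LMod B} (F : E.carrier →L[ℂ] E'.carrier) (a : A)
    (y : (TJ α E).carrier) : tm m F (aM (TJ α E) a y) = aM (TJ β E') (m.f a) (tm m F y) := by
  refine extJ α E (f := (tm m F).comp (aM (TJ α E) a))
    (g := (aM (TJ β E') (m.f a)).comp (tm m F)) (fun j x => ?_) y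
  rw [ContinuousLinearMap.comp_apply, ContinuousLinearMap.comp_apply, aM_tJ, tm_tJ, tm_tJ, aM_tJ,
    mJ_mulJ]

lemma tm_nb {E : LMod A} {E' : LMod B} (F : E.carrier →L[ℂ] E'.carrier)
    (b : (TJ α E).carrier →L[ℂ] E.carrier) (b' : (TJ β E').carrier →L[ℂ] E'.carrier)
    (h : ∀ y, F (b y) = b' (tm m F y)) (y : (TJ α (TJ α E)).carrier) :
    tm m F (nb α E b y) = nb β E' b' (tm m (tm m F) y) := by
  refine extJ α (TJ α E) (f := (tm m F).comp (nb α E b))
    (g := (nb β E' b').comp (tm m (tm m F))) (fun j x => ?_) y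
  rw [ContinuousLinearMap.comp_apply, ContinuousLinearMap.comp_apply, nb_tJ, map_sub, tm_lin,
    tm_tJ, tm_tJ, nb_tJ, h]
  rfl

/-- The induced operators on the levels. -/
noncomputable def Lm : ∀ k, (lv α k).E.carrier →L[ℂ] (lv β k).E.carrier
  | 0 => (ContinuousLinearMap.id ℂ ℂ : ℂ →L[ℂ] ℂ)
  | k + 1 => tm m (Lm k)

lemma Lm_lin : ∀ k (a : A) (x : (lv α k).E.carrier),
    Lm m k (aM (lv α k).E a x) = aM (lv β k).E (m.f a) (Lm m k x)
  | 0, a, x => by
    show (α.ε a • (show ℂ from x) : ℂ) = (β.ε (m.f a) • (show ℂ from x) : ℂ)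
    rw [m.aug]
  | k + 1, a, x => tm_lin m (Lm m k) a x

lemma b0_nat (F : (E0 α).carrier →L[ℂ] (E0 β).carrier)
    (hF : ∀ a x, F (aM (E0 α) a x) = aM (E0 β) (m.f a) (F x)) (y : (TJ α (E0 α)).carrier) :
    F (b0 α y) = b0 β (tm m F y) := by
  refine extJ α (E0 α) (f := F.comp (b0 α)) (g := (b0 β).comp (tm m F)) (fun j x => ?_) y
  rw [ContinuousLinearMap.comp_apply, ContinuousLinearMap.comp_apply, b0_tJ, hF, tm_tJ, b0_tJ]
  rfl

lemma Lm_b : ∀ k (y : (TJ α (lv α k).E).carrier),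
    Lm m k ((lv α k).b y) = (lv β k).b (tm m (Lm m k) y)
  | 0, y => b0_nat m (Lm m 0) (Lm_lin m 0) y
  | k + 1, y => tm_nb m (Lm m k) (lv α k).b (lv β k).b (Lm_b k) y

section retr

variable (i : Mor β α) (p : Mor α β) (h : ∀ b, p.f (i.f b) = b)

include h in
lemma tm_retr {E : LMod B} {E' : LMod A} (F : E.carrier →L[ℂ] E'.carrier)
    (G : E'.carrier →L[ℂ] E.carrier) (hFG : ∀ x, G (F x) = x) (y : (TJ β E).carrier) :
    tm p G (tm i F y) = y := by
  refine extJ β E (f := (tm p G).comp (tm i F)) (g := ContinuousLinearMap.id ℂ _)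
    (fun j x => ?_) y
  rw [ContinuousLinearMap.comp_apply, tm_tJ, tm_tJ, hFG]
  have : mJ p (mJ i j) = j := Subtype.ext (h j)
  rw [this]
  rfl

include h in
lemma Lm_retr : ∀ k (x : (lv β k).E.carrier), Lm p k (Lm i k x) = x
  | 0, _ => rfl
  | k + 1, x => tm_retr i p h (Lm i k) (Lm p k) (Lm_retr k) x

include h in
/-- Retracts inherit the operators of the library. -/
theorem retr_T (n : ℕ) (T : (TJ α (lv α n).E).carrier →L[ℂ] (TJ α (lv α n).E).carrier)
    (h1 : ∀ e, (lv α n).b (T e) = (lv α n).b e)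
    (h2 : ∀ y, T (nb α (lv α n).E (lv α n).b y) = 0) :
    ∃ T' : (TJ β (lv β n).E).carrier →L[ℂ] (TJ β (lv β n).E).carrier,
      (∀ e, (lv β n).b (T' e) = (lv β n).b e) ∧ ∀ y, T' (nb β (lv β n).E (lv β n).b y) = 0 := by
  refine ⟨(tm p (Lm p n)).comp (T.comp (tm i (Lm i n))), fun e => ?_, fun y => ?_⟩
  · show (lv β n).b (tm p (Lm p n) (T (tm i (Lm i n) e))) = _
    rw [← Lm_b p n, h1, ← Lm_b i n, Lm_retr i p h]
  · show tm p (Lm p n) (T (tm i (Lm i n) (nb β (lv β n).E (lv β n).b y))) = 0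
    rw [tm_nb i (Lm i n) (lv β n).b (lv α n).b (Lm_b i n), h2, map_zero]

variable {D : Dat B}

include h in
theorem no_res' (hβ : NP D β) {X : LMod A} (e : ℂ ≃L[ℂ] X.carrier)
    (hX : ∀ a z, X.act a (e z) = e (α.ε a * z)) (n : ℕ) : ¬ X.HasResolution n := by
  rintro ⟨R, hR⟩
  obtain ⟨T, h1, h2⟩ := exists_T α e hX (n + 1) ⟨R, fun i hi => hR i (by omega)⟩
  obtain ⟨T', h1', h2'⟩ := retr_T i p h (n + 1) T h1 h2
  exact no_T hβ n T' h1' h2'

include h in
theorem dh_top' (hβ : NP D β) {X : LMod A} (e : ℂ ≃L[ℂ] X.carrier)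
    (hX : ∀ a z, X.act a (e z) = e (α.ε a * z)) : X.dh = ⊤ := by
  simp only [LMod.dh, iInf_eq_top]
  intro n hn
  exact absurd hn (no_res' i p h hβ e hX n)

include h in
theorem db_top' (hβ : NP D β) : db A = ⊤ := by
  obtain ⟨X, e, hX, hX'⟩ := BD.exists_aug α.ε α.mul
  have h1 : ∀ n, ¬ (plusBMod A).HasResolution n := fun n hn =>
    no_res' i p h hβ e (fun a z => by rw [hX, ← smul_eq_mul, map_smul]) n (hX' n hn)
  simp only [db, BMod.dh, iInf_eq_top]
  intro n hn
  exact absurd hn (h1 n)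

end retr

/-- The one-dimensional module of a bounded multiplicative functional. -/
noncomputable def chMod (ε : A →L[ℂ] ℂ) (hε : ∀ a b, ε (a * b) = ε a * ε b) : LMod A where
  carrier := ℂ
  act a z := ε a * z
  bdd := ((ContinuousLinearMap.mul ℂ ℂ).comp ε).isBoundedBilinearMap
  act_mul a b z := by rw [hε, mul_assoc]

lemma chMod_irr (ε : A →L[ℂ] ℂ) (hε : ∀ a b, ε (a * b) = ε a * ε b) (h1 : ε 1 = 1) :
    IsIrreducible (chMod ε hε) := by
  refine ⟨⟨1, (1 : ℂ), ?_⟩, fun N _ => ?_⟩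
  · show ε 1 * 1 ≠ 0
    rw [mul_one, h1]
    exact one_ne_zero
  · by_cases h : ∃ v ∈ N, v ≠ 0
    · right
      obtain ⟨v, hv, hv0⟩ := h
      rw [eq_top_iff]
      intro w _
      have hv0' : (show ℂ from v) ≠ 0 := hv0
      have e : w = ((show ℂ from w) / (show ℂ from v)) • v := by
        show (show ℂ from w) = ((show ℂ from w) / (show ℂ from v)) * (show ℂ from v)
        field_simp
      rw [e]
      exact N.smul_mem _ hv
    · left
      push Not at h
      rw [eq_bot_iff]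
      intro v hv
      rw [Submodule.mem_bot]
      exact h v hv

/-- **Banach algebras with `C(βℕ)` as a retract.** -/
theorem retract_main (i : C(StoneCech ℕ, ℂ) →L[ℂ] A) (p : A →L[ℂ] C(StoneCech ℕ, ℂ))
    (hi : ∀ f g, i (f * g) = i f * i g) (hp : ∀ a b, p (a * b) = p a * p b)
    (hpi : ∀ f, p (i f) = f) :
    (∀ q : StoneCech ℕ, q ∉ Set.range (stoneCechUnit : ℕ → StoneCech ℕ) →
      ∀ (X : LMod A) (e : ℂ ≃L[ℂ] X.carrier), (∀ a z, X.act a (e z) = e (p a q * z)) →
        X.dh = ⊤) ∧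
    ds A = ⊤ ∧ dg A = ⊤ ∧ db A = ⊤ := by
  have hp1 : p 1 = 1 := by
    have h1 : p (i 1) = 1 := hpi 1
    calc p 1 = p 1 * p (i 1) := by rw [h1, mul_one]
      _ = p (1 * i 1) := (hp _ _).symm
      _ = 1 := by rw [one_mul, h1]
  let α : StoneCech ℕ → Chr A := fun q =>
    { ε := (ContinuousMap.evalCLM ℂ q).comp p
      mul := fun a b => by
        show p (a * b) q = p a q * p b q
        rw [hp]
        rfl
      one := by
        show p 1 q = 1
        rw [hp1]
        rfl }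
  let I : ∀ q, Mor (chrPt q) (α q) := fun q =>
    { f := i
      mul := hi
      aug := fun f => by
        show p (i f) q = f q
        rw [hpi] }
  let P : ∀ q, Mor (α q) (chrPt q) := fun q =>
    { f := p
      mul := hp
      aug := fun a => rfl }
  have key : ∀ q : StoneCech ℕ, q ∉ Set.range (stoneCechUnit : ℕ → StoneCech ℕ) →
      ∀ (X : LMod A) (e : ℂ ≃L[ℂ] X.carrier), (∀ a z, X.act a (e z) = e (p a q * z)) →
        X.dh = ⊤ := fun q hq X e hX =>
    dh_top' (I q) (P q) hpi (chrPt_np q hq) e hX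
  obtain ⟨q, hq⟩ := exists_free
  have hds : ds A = ⊤ := by
    refine top_le_iff.1 ?_
    rw [← key q hq (chMod (α q).ε (α q).mul) (ContinuousLinearEquiv.refl ℂ ℂ) fun _ _ => rfl]
    exact le_iSup₂_of_le (chMod (α q).ε (α q).mul) (chMod_irr _ _ (α q).one) le_rfl
  refine ⟨key, hds, ?_, db_top' (I q) (P q) hpi (chrPt_np q hq)⟩
  refine top_le_iff.1 ?_
  rw [← hds]
  exact ds_le_dg _

end Pool.Agent.Y268.GD
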