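import Mathlib

set_option autoImplicit false
set_option linter.unusedSectionVars false
set_option linter.deprecated false

/-!
Compact spaces which retract onto the Stone-Čech compactification of the natural numbers.
-/

namespace Pool.Agent.Y268.GD

open Set Topology Filter

section retr

variable {K : Type} [TopologicalSpace K] [CompactSpace K] [T2Space K]

/-- The union of the sets with index in `S`. -/
def VS (V : ℕ → Set K) (S : Set ℕ) : Set K := ⋃ n ∈ S, V n

lemma mem_VS {V : ℕ → Set K} {S : Set ℕ} {x : K} : x ∈ VS V S ↔ ∃ n ∈ S, x ∈ V n := by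
  simp [VS]

lemma VS_open {V : ℕ → Set K} (ho : ∀ n, IsOpen (V n)) (S : Set ℕ) : IsOpen (VS V S) :=
  isOpen_biUnion fun n _ => ho n

lemma VS_mono {V : ℕ → Set K} {S T : Set ℕ} (h : S ⊆ T) : VS V S ⊆ VS V T :=
  biUnion_subset_biUnion_left h

lemma cl_inter {V : ℕ → Set K} (ho : ∀ n, IsOpen (V n)) (hd : Pairwise (Function.onFun Disjoint V))
    (hc : ∀ S, IsOpen (closure (VS V S))) {S T : Set ℕ} {x : K} (h1 : x ∈ closure (VS V S))
    (h2 : x ∈ closure (VS V T)) : x ∈ closure (VS V (S ∩ T)) := by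
  rw [mem_closure_iff]
  intro W hW hx
  obtain ⟨y, ⟨hyW, hyT⟩, hyS⟩ := mem_closure_iff.1 h1 (W ∩ closure (VS V T)) (hW.inter (hc T))
    ⟨hx, h2⟩
  obtain ⟨z, ⟨hzW, hzS⟩, hzT⟩ := mem_closure_iff.1 hyT (W ∩ VS V S) (hW.inter (VS_open ho S))
    ⟨hyW, hyS⟩
  refine ⟨z, hzW, ?_⟩
  obtain ⟨n, hn, hzn⟩ := mem_VS.1 hzS
  obtain ⟨k, hk, hzk⟩ := mem_VS.1 hzT
  have hnk : n = k := by
    by_contra hne
    exact (hd hne).ne_of_mem hzn hzk rfl
  subst hnk
  exact mem_VS.2 ⟨n, ⟨hn, hk⟩, hzn⟩

lemma cl_compl {V : ℕ → Set K} (ho : ∀ n, IsOpen (V n))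
    (hd : Pairwise (Function.onFun Disjoint V))
    (hc : ∀ S, IsOpen (closure (VS V S))) {x : K} (hx : x ∈ closure (VS V univ)) (S : Set ℕ) :
    x ∉ closure (VS V Sᶜ) ↔ x ∈ closure (VS V S) := by
  constructor
  · intro h
    have h1 : VS V univ = VS V S ∪ VS V Sᶜ := by
      ext y
      simp only [mem_union, mem_VS]
      constructor
      · rintro ⟨n, -, hn⟩
        by_cases hS : n ∈ S
        · exact Or.inl ⟨n, hS, hn⟩
        · exact Or.inr ⟨n, hS, hn⟩
      · rintro (⟨n, -, hn⟩ | ⟨n, -, hn⟩)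
        · exact ⟨n, mem_univ _, hn⟩
        · exact ⟨n, mem_univ _, hn⟩
    rw [h1, closure_union] at hx
    exact hx.resolve_right h
  · intro h1 h2
    have h3 := cl_inter ho hd hc h1 h2
    rw [inter_compl_self] at h3
    simp [VS] at h3

/-- The ultrafilter of a point. -/
noncomputable def uf {V : ℕ → Set K} (ho : ∀ n, IsOpen (V n))
    (hd : Pairwise (Function.onFun Disjoint V))
    (hc : ∀ S, IsOpen (closure (VS V S))) (x : K) (hx : x ∈ closure (VS V univ)) :
    Ultrafilter ℕ :=
  Ultrafilter.ofComplNotMemIff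
    { sets := {S | x ∈ closure (VS V S)}
      univ_sets := hx
      sets_of_superset := fun h hST => closure_mono (VS_mono hST) h
      inter_sets := fun h1 h2 => cl_inter ho hd hc h1 h2 } (fun S => cl_compl ho hd hc hx S)

lemma mem_uf {V : ℕ → Set K} (ho : ∀ n, IsOpen (V n))
    (hd : Pairwise (Function.onFun Disjoint V))
    (hc : ∀ S, IsOpen (closure (VS V S))) (x : K) (hx : x ∈ closure (VS V univ)) (S : Set ℕ) :
    S ∈ uf ho hd hc x hx ↔ x ∈ closure (VS V S) := Iff.rfl

open Classical in
/-- The map into the space of ultrafilters. -/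
noncomputable def FF {V : ℕ → Set K} (ho : ∀ n, IsOpen (V n))
    (hd : Pairwise (Function.onFun Disjoint V))
    (hc : ∀ S, IsOpen (closure (VS V S))) (x : K) : Ultrafilter ℕ :=
  if hx : x ∈ closure (VS V univ) then uf ho hd hc x hx else pure 0

lemma FF_pos {V : ℕ → Set K} (ho : ∀ n, IsOpen (V n))
    (hd : Pairwise (Function.onFun Disjoint V))
    (hc : ∀ S, IsOpen (closure (VS V S))) {x : K} (hx : x ∈ closure (VS V univ)) (S : Set ℕ) :
    S ∈ FF ho hd hc x ↔ x ∈ closure (VS V S) := by
  unfold FF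
  rw [dif_pos hx]
  exact mem_uf ho hd hc x hx S

lemma FF_neg {V : ℕ → Set K} (ho : ∀ n, IsOpen (V n))
    (hd : Pairwise (Function.onFun Disjoint V))
    (hc : ∀ S, IsOpen (closure (VS V S))) {x : K} (hx : x ∉ closure (VS V univ)) (S : Set ℕ) :
    S ∈ FF ho hd hc x ↔ 0 ∈ S := by
  unfold FF
  rw [dif_neg hx]
  exact Iff.rfl

lemma FF_cont {V : ℕ → Set K} (ho : ∀ n, IsOpen (V n))
    (hd : Pairwise (Function.onFun Disjoint V))
    (hc : ∀ S, IsOpen (closure (VS V S))) : Continuous (FF ho hd hc) := by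
  refine continuous_generateFrom_iff.2 ?_
  rintro _ ⟨S, rfl⟩
  by_cases h0 : (0 : ℕ) ∈ S
  · have : FF ho hd hc ⁻¹' {u | S ∈ u} = closure (VS V S) ∪ (closure (VS V univ))ᶜ := by
      ext x
      show S ∈ FF ho hd hc x ↔ x ∈ closure (VS V S) ∨ x ∉ closure (VS V univ)
      by_cases hx : x ∈ closure (VS V univ)
      · rw [FF_pos ho hd hc hx]
        exact ⟨Or.inl, fun h => h.resolve_right (fun h' => h' hx)⟩
      · rw [FF_neg ho hd hc hx]
        exact ⟨fun _ => Or.inr hx, fun _ => h0⟩
    rw [this]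
    exact (hc S).union isClosed_closure.isOpen_compl
  · have : FF ho hd hc ⁻¹' {u | S ∈ u} = closure (VS V S) := by
      ext x
      show S ∈ FF ho hd hc x ↔ x ∈ closure (VS V S)
      by_cases hx : x ∈ closure (VS V univ)
      · exact FF_pos ho hd hc hx S
      · rw [FF_neg ho hd hc hx]
        exact ⟨fun h => absurd h h0,
          fun h => absurd (closure_mono (VS_mono (subset_univ S)) h) hx⟩
    rw [this]
    exact hc S

lemma FF_of_mem {V : ℕ → Set K} (ho : ∀ n, IsOpen (V n))
    (hd : Pairwise (Function.onFun Disjoint V))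
    (hc : ∀ S, IsOpen (closure (VS V S))) {n : ℕ} {x : K} (hx : x ∈ V n) :
    FF ho hd hc x = pure n := by
  have h1 : x ∈ closure (VS V univ) := subset_closure (mem_VS.2 ⟨n, mem_univ _, hx⟩)
  ext S
  rw [FF_pos ho hd hc h1]
  constructor
  · intro h
    show n ∈ S
    obtain ⟨y, hy1, hy2⟩ := mem_closure_iff.1 h (V n) (ho n) hx
    obtain ⟨k, hk, hyk⟩ := mem_VS.1 hy2
    have hnk : n = k := by
      by_contra hne
      exact (hd hne).ne_of_mem hy1 hyk rfl
    rw [hnk]
    exact hk
  · intro h
    exact subset_closure (mem_VS.2 ⟨n, h, hx⟩)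

/-- A retraction onto `βℕ`. -/
theorem exists_retraction {V : ℕ → Set K} (hne : ∀ n, (V n).Nonempty) (ho : ∀ n, IsOpen (V n))
    (hd : Pairwise (Function.onFun Disjoint V)) (hc : ∀ S, IsOpen (closure (VS V S))) :
    ∃ (j : C(StoneCech ℕ, K)) (r : C(K, StoneCech ℕ)), ∀ x, r (j x) = x := by
  choose d hdV using hne
  have hcd : Continuous d := continuous_of_discreteTopology
  let r : K → StoneCech ℕ := fun x => Ultrafilter.extend (stoneCechUnit : ℕ → StoneCech ℕ)
    (FF ho hd hc x)
  have hr : Continuous r :=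
    (continuous_ultrafilter_extend (stoneCechUnit : ℕ → StoneCech ℕ)).comp (FF_cont ho hd hc)
  refine ⟨⟨stoneCechExtend hcd, continuous_stoneCechExtend hcd⟩, ⟨r, hr⟩, fun x => ?_⟩
  have key : (r ∘ stoneCechExtend hcd) = id := by
    refine stoneCech_hom_ext (hr.comp (continuous_stoneCechExtend hcd)) continuous_id ?_
    funext n
    show r (stoneCechExtend hcd (stoneCechUnit n)) = stoneCechUnit n
    rw [stoneCechExtend_stoneCechUnit]
    show Ultrafilter.extend (stoneCechUnit : ℕ → StoneCech ℕ) (FF ho hd hc (d n)) = _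
    rw [FF_of_mem ho hd hc (hdV n)]
    exact congrFun (ultrafilter_extend_extends (stoneCechUnit : ℕ → StoneCech ℕ)) n
  exact congrFun key x

/-- Infinite basically disconnected compact spaces. -/
theorem exists_retraction_bd [Infinite K]
    (hK : ∀ f : C(K, ℝ), IsOpen (closure {x | f x ≠ 0})) :
    ∃ (j : C(StoneCech ℕ, K)) (r : C(K, StoneCech ℕ)), ∀ x, r (j x) = x := by
  obtain ⟨U, hU1, hU2, hU3⟩ := exists_seq_infinite_isOpen_pairwise_disjoint K
  have h1 : ∀ n, ∃ f : C(K, ℝ), (∃ x, f x ≠ 0) ∧ (∀ x, x ∉ U n → f x = 0) ∧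
      ∀ x, f x ∈ Icc (0 : ℝ) 1 := by
    intro n
    obtain ⟨x, hx⟩ := (hU1 n).nonempty
    obtain ⟨f, hf1, hf2, hf3⟩ := exists_continuous_zero_one_of_isClosed
      (hU2 n).isClosed_compl (isClosed_singleton (x := x))
      (disjoint_singleton_right.2 (fun h => h hx))
    refine ⟨f, ⟨x, ?_⟩, fun y hy => hf1 hy, hf3⟩
    have := hf2 (mem_singleton x)
    rw [this]
    exact one_ne_zero
  choose f hf1 hf2 hf3 using h1
  let V : ℕ → Set K := fun n => {x | f n x ≠ 0}
  have hVU : ∀ n, V n ⊆ U n := fun n x hx => by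
    by_contra h
    exact hx (hf2 n x h)
  refine exists_retraction (V := V) (fun n => hf1 n)
    (fun n => isOpen_ne_fun (f n).continuous continuous_const)
    (fun n k hnk => (hU3 hnk).mono (hVU n) (hVU k)) ?_
  intro S
  classical
  let t : ℕ → K → ℝ := fun n x => if n ∈ S then (1 / 2 : ℝ) ^ n * f n x else 0
  have ht0 : ∀ n x, 0 ≤ t n x := by
    intro n x
    simp only [t]
    split_ifs
    · exact mul_nonneg (by positivity) (hf3 n x).1
    · exact le_rfl
  have htb : ∀ n x, ‖t n x‖ ≤ (1 / 2 : ℝ) ^ n := by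
    intro n x
    rw [Real.norm_of_nonneg (ht0 n x)]
    simp only [t]
    split_ifs
    · calc (1 / 2 : ℝ) ^ n * f n x ≤ (1 / 2 : ℝ) ^ n * 1 :=
          mul_le_mul_of_nonneg_left (hf3 n x).2 (by positivity)
        _ = _ := mul_one _
    · positivity
  have hsum : Summable fun n : ℕ => (1 / 2 : ℝ) ^ n := summable_geometric_two
  have hct : ∀ n, Continuous (t n) := by
    intro n
    simp only [t]
    split_ifs
    · exact continuous_const.mul (f n).continuous
    · exact continuous_const
  let g : C(K, ℝ) := ⟨fun x => ∑' n, t n x, continuous_tsum hct hsum htb⟩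
  have hg : {x | g x ≠ 0} = VS V S := by
    ext x
    have hs : Summable fun n => t n x := Summable.of_norm_bounded hsum fun n => htb n x
    rw [mem_setOf_eq, mem_VS]
    constructor
    · intro h
      by_contra hcon
      push Not at hcon
      apply h
      show ∑' n, t n x = 0
      have : (fun n => t n x) = fun _ => 0 := by
        funext n
        simp only [t]
        split_ifs with hn
        · have h2 : ¬ (f n x ≠ 0) := hcon n hn
          rw [not_not.1 h2, mul_zero]
        · rfl
      rw [this, tsum_zero]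
    · rintro ⟨n, hn, hx⟩ h
      have h2 : ∑' n, t n x = 0 := h
      have h3 := (hasSum_zero_iff_of_nonneg (fun n => ht0 n x)).1 (h2 ▸ hs.hasSum)
      have h4 := congrFun h3 n
      simp only [t, if_pos hn, Pi.zero_apply] at h4
      rcases mul_eq_zero.1 h4 with h5 | h5
      · exact absurd h5 (by positivity)
      · exact hx h5
  rw [← hg]
  exact hK g

end retr

/-! ### The remainder of `βℕ` -/

lemma isOpen_unit (n : ℕ) : IsOpen {(stoneCechUnit n : StoneCech ℕ)} := by
  classical
  let g : ℕ → Bool := fun k => decide (k = n)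
  have hg : Continuous g := continuous_of_discreteTopology
  have h1 : {(stoneCechUnit n : StoneCech ℕ)} = stoneCechExtend hg ⁻¹' {true} := by
    ext x
    rw [mem_singleton_iff, mem_preimage, mem_singleton_iff]
    constructor
    · rintro rfl
      rw [stoneCechExtend_stoneCechUnit]
      simp [g]
    · intro hx
      by_contra hne
      have ho : IsOpen ((stoneCechExtend hg ⁻¹' {true}) ∩ {(stoneCechUnit n : StoneCech ℕ)}ᶜ) :=
        ((isOpen_discrete _).preimage (continuous_stoneCechExtend hg)).inter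
          isClosed_singleton.isOpen_compl
      obtain ⟨k, hk1, hk2⟩ := denseRange_stoneCechUnit.exists_mem_open ho ⟨x, hx, hne⟩
      have h3 : g k = true := by
        have := hk1
        rw [mem_preimage, mem_singleton_iff, stoneCechExtend_stoneCechUnit] at this
        exact this
      have h4 : k = n := by simpa [g] using h3
      exact hk2 (by rw [h4]; rfl)
  rw [h1]
  exact (isOpen_discrete _).preimage (continuous_stoneCechExtend hg)

/-- The remainder of `βℕ`. -/
abbrev Rem : Type := {x : StoneCech ℕ // x ∉ Set.range (stoneCechUnit : ℕ → StoneCech ℕ)}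

lemma isClosed_rem :
    IsClosed {x : StoneCech ℕ | x ∉ Set.range (stoneCechUnit : ℕ → StoneCech ℕ)} := by
  have : {x : StoneCech ℕ | x ∉ Set.range (stoneCechUnit : ℕ → StoneCech ℕ)} =
      (⋃ n : ℕ, {(stoneCechUnit n : StoneCech ℕ)})ᶜ := by
    ext x
    simp only [mem_setOf_eq, mem_range, not_exists, mem_compl_iff, mem_iUnion, mem_singleton_iff]
    exact forall_congr' fun n => not_congr eq_comm
  rw [this]
  exact (isOpen_iUnion isOpen_unit).isClosed_compl

instance : CompactSpace Rem := isCompact_iff_compactSpace.1 isClosed_rem.isCompact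

/-- The remainder retracts onto `βℕ`. -/
theorem exists_retraction_rem (hfree : ∃ p : StoneCech ℕ,
    p ∉ Set.range (stoneCechUnit : ℕ → StoneCech ℕ)) :
    ∃ (j : C(StoneCech ℕ, Rem)) (r : C(Rem, StoneCech ℕ)), ∀ x, r (j x) = x := by
  obtain ⟨q, hq⟩ := hfree
  have hc1 : Continuous (fun m : ℕ => (stoneCechUnit (Nat.unpair m).1 : StoneCech ℕ)) :=
    continuous_of_discreteTopology
  have hc2 : ∀ n : ℕ, Continuous (fun k : ℕ => (stoneCechUnit (Nat.pair n k) : StoneCech ℕ)) :=
    fun n => continuous_of_discreteTopology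
  have hcomp : ∀ n y, stoneCechExtend hc1 (stoneCechExtend (hc2 n) y) = stoneCechUnit n := by
    intro n y
    have : (stoneCechExtend hc1) ∘ (stoneCechExtend (hc2 n)) = fun _ => stoneCechUnit n := by
      refine stoneCech_hom_ext ((continuous_stoneCechExtend hc1).comp
        (continuous_stoneCechExtend (hc2 n))) continuous_const ?_
      funext k
      show stoneCechExtend hc1 (stoneCechExtend (hc2 n) (stoneCechUnit k)) = stoneCechUnit n
      rw [stoneCechExtend_stoneCechUnit, stoneCechExtend_stoneCechUnit, Nat.unpair_pair]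
    exact congrFun this y
  have hfr : ∀ n, stoneCechExtend (hc2 n) q ∉ Set.range (stoneCechUnit : ℕ → StoneCech ℕ) := by
    rintro n ⟨m, hm⟩
    have ho : IsOpen ((stoneCechExtend (hc2 n) ⁻¹' {(stoneCechUnit m : StoneCech ℕ)}) ∩
        {(stoneCechUnit (Nat.unpair m).2 : StoneCech ℕ)}ᶜ) :=
      ((isOpen_unit m).preimage (continuous_stoneCechExtend (hc2 n))).inter
        isClosed_singleton.isOpen_compl
    obtain ⟨k, hk1, hk2⟩ := denseRange_stoneCechUnit.exists_mem_open ho
      ⟨q, hm.symm, fun h => hq ⟨_, h.symm⟩⟩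
    rw [mem_preimage, mem_singleton_iff, stoneCechExtend_stoneCechUnit] at hk1
    have h3 : Nat.pair n k = m := by
      by_contra hne
      classical
      have hg : Continuous (fun l : ℕ => decide (l = m)) := continuous_of_discreteTopology
      have h5 := eq_if_stoneCechUnit_eq hg hk1
      simp only [decide_eq_true_eq, decide_true, decide_eq_true_eq] at h5
      exact hne h5
    apply hk2
    rw [← h3, Nat.unpair_pair]
    rfl
  have hd : Continuous (fun n : ℕ => (⟨stoneCechExtend (hc2 n) q, hfr n⟩ : Rem)) :=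
    continuous_of_discreteTopology
  let r : Rem → StoneCech ℕ := fun x => stoneCechExtend hc1 x.1
  have hr : Continuous r := (continuous_stoneCechExtend hc1).comp continuous_subtype_val
  refine ⟨⟨stoneCechExtend hd, continuous_stoneCechExtend hd⟩, ⟨r, hr⟩, fun x => ?_⟩
  have key : (r ∘ stoneCechExtend hd) = id := by
    refine stoneCech_hom_ext (hr.comp (continuous_stoneCechExtend hd)) continuous_id ?_
    funext n
    show r (stoneCechExtend hd (stoneCechUnit n)) = stoneCechUnit n
    rw [stoneCechExtend_stoneCechUnit]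
    exact hcomp n q
  exact congrFun key x

end Pool.Agent.Y268.GD
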