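import Mathlib
import Pool.Agent.Helper133.CD.DataEx

set_option autoImplicit false

/-!
Hilbert space data of a C*-algebra with a prescribed orthogonal sequence.
-/

namespace Pool.Agent.Y268.GD

open scoped InnerProductSpace
open Filter Topology Pool.Agent.Helper133.CD

universe u

theorem exists_data_orth (A : Type u) [NonUnitalCStarAlgebra A] (a b : ℕ → A)
    (ha1 : ∀ n, IsSelfAdjoint (a n)) (ha2 : ∀ n, ‖a n‖ ≤ 1) (hb : ∀ n, b n ≠ 0)
    (hab : ∀ n, a n * b n = b n) (ha3 : ∀ m n, m ≠ n → a m * a n = 0) :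
    ∃ d : Data A, d.a = a := by
  classical
  obtain ⟨K, iK1, iK2, iK3, π, η, hη⟩ := J6a.CDst.exists_rep (Unitization ℂ A)
    (fun n => (b n : Unitization ℂ A)) (fun n h0 => hb n (Unitization.inr_injective (by
      rw [h0, Unitization.inr_zero])))
  set w : ℕ → K := fun n => π (b n : Unitization ℂ A) (η n) with hw
  set ζ : ℕ → K := fun n => ((‖w n‖ : ℂ)⁻¹) • w n with hζdef
  have hwn : ∀ n, ‖w n‖ ≠ 0 := fun n => norm_ne_zero_iff.mpr (hη n)
  have hζ : ∀ n, ‖ζ n‖ = 1 := by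
    intro n
    rw [hζdef]
    simp only [norm_smul, norm_inv, Complex.norm_real, norm_norm]
    exact inv_mul_cancel₀ (hwn n)
  have haζ : ∀ n, π (a n : Unitization ℂ A) (ζ n) = ζ n := by
    intro n
    have h1 : π (a n : Unitization ℂ A) (w n) = w n := by
      rw [hw]
      show (π (a n : Unitization ℂ A) * π (b n : Unitization ℂ A)) (η n) = _
      rw [← map_mul, ← Unitization.inr_mul, hab]
    rw [hζdef]
    simp only [map_smul, h1]
  obtain ⟨U, H, iH1, iH2, iH3, ρ, ξ, hU, hlim, hcyc⟩ :=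
    J6b.exists_limit_rep (Unitization ℂ A) K π ζ hζ
  have hξ : ‖ξ‖ = 1 := by
    have h1 := hlim 1
    have h2 : ∀ n, ⟪ζ n, π 1 (ζ n)⟫_ℂ = 1 := by
      intro n
      rw [map_one]
      show ⟪ζ n, ζ n⟫_ℂ = 1
      rw [inner_self_eq_norm_sq_to_K, hζ]; simp
    simp only [h2] at h1
    have h3 := tendsto_nhds_unique h1 tendsto_const_nhds
    rw [map_one] at h3
    have h4 : ⟪ξ, ξ⟫_ℂ = 1 := h3
    have h5 : ‖ξ‖ ^ 2 = 1 := by
      rw [← inner_self_eq_norm_sq (𝕜 := ℂ), h4]
      simp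
    have h6 : (0 : ℝ) ≤ ‖ξ‖ := norm_nonneg _
    nlinarith
  have haa : ∀ n k, k ≠ n → π (a n : Unitization ℂ A) (ζ k) = 0 := by
    intro n k hk
    rw [← haζ k]
    show (π (a n : Unitization ℂ A) * π (a k : Unitization ℂ A)) (ζ k) = 0
    rw [← map_mul, ← Unitization.inr_mul, ha3 n k (Ne.symm hk), Unitization.inr_zero, map_zero]
    rfl
  have hstar : ∀ (x : Unitization ℂ A) (k k' : K), ⟪π (star x) k, k'⟫_ℂ = ⟪k, π x k'⟫_ℂ := by
    intro x k k'
    rw [map_star, ContinuousLinearMap.star_eq_adjoint, ContinuousLinearMap.adjoint_inner_left]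
  have hstar' : ∀ (x : Unitization ℂ A) (k k' : H), ⟪ρ (star x) k, k'⟫_ℂ = ⟪k, ρ x k'⟫_ℂ := by
    intro x k k'
    rw [map_star, ContinuousLinearMap.star_eq_adjoint, ContinuousLinearMap.adjoint_inner_left]
  have hastar : ∀ n, star (a n : Unitization ℂ A) = (a n : Unitization ℂ A) := by
    intro n
    rw [← Unitization.inr_star, (ha1 n).star_eq]
  have haξ : ∀ n, ρ (a n : Unitization ℂ A) ξ = 0 := by
    intro n
    have h1 := hlim ((a n : Unitization ℂ A) * (a n : Unitization ℂ A))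
    have h2 : ∀ᶠ k in (U : Filter ℕ),
        ⟪ζ k, π ((a n : Unitization ℂ A) * (a n : Unitization ℂ A)) (ζ k)⟫_ℂ = 0 := by
      filter_upwards [hU (n + 1)] with k hk
      rw [map_mul]
      show ⟪ζ k, π (a n : Unitization ℂ A) (π (a n : Unitization ℂ A) (ζ k))⟫_ℂ = 0
      rw [haa n k (by omega), map_zero, inner_zero_right]
    have h3 := tendsto_nhds_unique (h1.congr' h2) tendsto_const_nhds
    rw [map_mul] at h3
    have h4 : ⟪ξ, ρ (a n : Unitization ℂ A) (ρ (a n : Unitization ℂ A) ξ)⟫_ℂ = 0 := h3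
    rw [← hstar', hastar] at h4
    exact inner_self_eq_zero.mp h4
  obtain ⟨ρ', hρ', hρn⟩ := exists_action A H ρ
  obtain ⟨π', hπ', hπn⟩ := exists_action A K π
  refine ⟨{ H := H, K := K, ρ := ρ', π := π', a := a, ζ := ζ, ξ := ξ
            ρ_mul := ?_, π_mul := ?_, ρ_star := ?_, π_star := ?_
            ρ_norm := hρn, π_norm := hπn, a_star := fun n => (ha1 n).star_eq
            a_orth := ha3, a_norm := J5.norm_orth_sum_le A a ha1 ha2 ha3
            ζ_norm := hζ, a_ζ := ?_, ξ_norm := hξ, a_ξ := ?_, el := ?_ }, rfl⟩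
  · intro x y k
    rw [hρ', hρ', hρ', Unitization.inr_mul, map_mul]; rfl
  · intro x y k
    rw [hπ', hπ', hπ', Unitization.inr_mul, map_mul]; rfl
  · intro x k k'
    rw [hρ', hρ', Unitization.inr_star]
    exact hstar' _ _ _
  · intro x k k'
    rw [hπ', hπ', Unitization.inr_star]
    exact hstar _ _ _
  · intro n
    rw [hπ']; exact haζ n
  · intro n
    rw [hρ']; exact haξ n
  · intro s ε hε N
    have h1 := J7.exists_almost_intertwiner (Unitization ℂ A) H K ρ π ζ hζ ξ (U : Filter ℕ) hlim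
      hcyc (s.image (fun p => ((p.1 : Unitization ℂ A), p.2))) ε hε
    obtain ⟨n, hn, Z, hZ1, hZ2, hZ3⟩ := ((hU N).and h1).exists
    refine ⟨n, hn, Z, hZ1, hZ2, fun p hp => ?_⟩
    have := hZ3 _ (Finset.mem_image_of_mem _ hp)
    rw [hρ', hπ']
    exact this

end Pool.Agent.Y268.GD
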