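import Mathlib
import Pool.Agent.Helper133.CD.J11

set_option autoImplicit false

namespace Pool.Agent.Y268.GD.S1

open scoped InnerProductSpace
universe u

/-- functionals on the free module attached to operators and vectors -/
theorem exists_functionals (A : Type u) [NonUnitalNormedRing A] [NormedSpace ℂ A]
    [IsScalarTower ℂ A A] [SMulCommClass ℂ A A]
    (H K : Type u) [NormedAddCommGroup H] [InnerProductSpace ℂ H]
    [CompleteSpace H] [NormedAddCommGroup K] [InnerProductSpace ℂ K] [CompleteSpace K]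
    (ρ : A →L[ℂ] H →L[ℂ] H) (π : A →L[ℂ] K →L[ℂ] K)
    (hρ : ∀ x y h, ρ (x * y) h = ρ x (ρ y h)) (hπ : ∀ x y k, π (x * y) k = π x (π y k))
    (κ : ℝ) (hκ : 1 ≤ κ) (πnorm : ∀ x, ‖π x‖ ≤ κ * ‖x‖)
    (L : Type u) (F : Filter L) (V : Type u) [NormedAddCommGroup V] [NormedSpace ℂ V]
    [CompleteSpace V] (α : A →L[ℂ] V →L[ℂ] V) (c : L → V →L[ℂ] H)
    (hc1 : ∀ l v, ‖c l v‖ ≤ ‖v‖) (hc2 : ∀ l a v, c l (α a v) = ρ a (c l v))
    (hc3 : ∀ v h, Filter.Tendsto (fun l => ⟪h, c l v⟫_ℂ) F (nhds 0))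
    (Q : Type u) [NormedAddCommGroup Q] [NormedSpace ℂ Q] [CompleteSpace Q]
    (β : A →L[ℂ] Q →L[ℂ] Q) (q : Q →L[ℂ] V) (t : (ℂ × A) →L[ℂ] V →L[ℂ] Q)
    (hβt : ∀ (a : A) (c : ℂ × A) v, β a (t c v) = t (0, c.1 • a + a * c.2) v)
    (hqt : ∀ c v, q (t c v) = c.1 • v + α c.2 v)
    (hd : (Submodule.span ℂ {y : Q | ∃ c v, y = t c v}).topologicalClosure = ⊤)
    (hB : ∀ B : (ℂ × A) →L[ℂ] V →L[ℂ] ℂ, ∃ F : Q →L[ℂ] ℂ, ∀ c v, F (t c v) = B c v)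
    (hG : ∀ (G : Q →L[ℂ] ℂ) (C : ℝ), 0 ≤ C → (∀ c v, ‖G (t c v)‖ ≤ C * ‖c‖ * ‖v‖) →
        ∀ y, ‖G y‖ ≤ C * ‖y‖)
    (ξ : H) (hξ : ‖ξ‖ = 1) :
    ∃ Φ : (H →L[ℂ] K) → K → L → Q →L[ℂ] ℂ,
      (∀ T ζ l y, ‖Φ T ζ l y‖ ≤ 2 * κ * ‖T‖ * ‖ζ‖ * ‖y‖) ∧
      (∀ T ζ y, Filter.Tendsto (fun l => Φ T ζ l y) F (nhds 0)) ∧
      (∀ T ζ l a y, (∀ w, ⟪ζ, π a w⟫_ℂ = ⟪ζ, w⟫_ℂ) → Φ T ζ l (β a y) = Φ T ζ l y) ∧
      (∀ (y : Q) (l : L) (δ : ℝ), 0 < δ → ∃ (s : Finset (A × H)) (ε : ℝ), 0 < ε ∧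
        ∀ (Z : H →L[ℂ] K) (ζ : K), ‖Z‖ ≤ 2 → ‖ζ‖ = 1 →
          (∀ p ∈ s, ‖Z (ρ p.1 p.2) - π p.1 (Z p.2)‖ ≤ ε ∧ ‖⟪ζ, Z p.2⟫_ℂ - ⟪ξ, p.2⟫_ℂ‖ ≤ ε) →
          ‖Φ Z ζ l y - ⟪ξ, c l (q y)⟫_ℂ‖ ≤ δ) ∧
      (∀ (N : ℕ) (g : ℕ → ℕ → ℂ) (C : ℝ), 0 ≤ C →
        (∀ (w v : ℕ → H) (U V : ℝ), (∀ i, ‖w i‖ ≤ U) → (∀ k, ‖v k‖ ≤ V) →
          ‖∑ i ∈ Finset.range N, ∑ k ∈ Finset.range N, g i k * ⟪w i, v k⟫_ℂ‖ ≤ C * U * V) →
        ∀ (T : ℕ → H →L[ℂ] K) (ζ : ℕ → K) (l : ℕ → L), (∀ i, ‖T i‖ ≤ 2) → (∀ i, ‖ζ i‖ ≤ 1) →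
        ∀ y, ‖∑ i ∈ Finset.range N, ∑ k ∈ Finset.range N, g i k * Φ (T i) (ζ i) (l k) y‖ ≤
          4 * κ * C * ‖y‖) := by
  obtain ⟨R, hR⟩ : ∃ R : (ℂ × A) →L[ℂ] K →L[ℂ] K, ∀ c w, R c w = c.1 • w + π c.2 w :=
    ⟨(ContinuousLinearMap.fst ℂ ℂ A).smulRight (ContinuousLinearMap.id ℂ K) +
      π.comp (ContinuousLinearMap.snd ℂ ℂ A), fun c w => rfl⟩
  have hκ0 : 0 < κ := lt_of_lt_of_le one_pos hκ
  have hRn : ∀ c, ‖R c‖ ≤ 2 * κ * ‖c‖ := by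
    intro c'
    refine ContinuousLinearMap.opNorm_le_bound _ (by positivity) (fun w => ?_)
    rw [hR]
    have h1 : ‖c'.1 • w‖ ≤ κ * ‖c'‖ * ‖w‖ := by
      rw [norm_smul]
      refine mul_le_mul_of_nonneg_right ?_ (norm_nonneg _)
      have h3 := norm_fst_le c'
      have h4 : ‖c'‖ ≤ κ * ‖c'‖ := le_mul_of_one_le_left (norm_nonneg _) hκ
      exact h3.trans h4
    have h2 : ‖π c'.2 w‖ ≤ κ * ‖c'‖ * ‖w‖ := by
      refine ((π c'.2).le_opNorm w).trans (mul_le_mul_of_nonneg_right ?_ (norm_nonneg _))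
      exact (πnorm _).trans (mul_le_mul_of_nonneg_left (norm_snd_le c') hκ0.le)
    calc ‖c'.1 • w + π c'.2 w‖ ≤ κ * ‖c'‖ * ‖w‖ + κ * ‖c'‖ * ‖w‖ := norm_add_le_of_le h1 h2
      _ = 2 * κ * ‖c'‖ * ‖w‖ := by ring
  have hB' : ∀ (T : H →L[ℂ] K) (ζ : K) (l : L), ∃ G : Q →L[ℂ] ℂ,
      ∀ c' v, G (t c' v) = ⟪ζ, R c' (T (c l v))⟫_ℂ := by
    intro T ζ l
    obtain ⟨G, hG'⟩ := hB ((ContinuousLinearMap.compL ℂ V K ℂ (innerSL ℂ ζ)).comp
      (((ContinuousLinearMap.compL ℂ V K K).flip (T.comp (c l))).comp R))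
    exact ⟨G, fun c' v => by rw [hG']; rfl⟩
  choose Φ hΦ using hB'
  have hΦn : ∀ T ζ l y, ‖Φ T ζ l y‖ ≤ 2 * κ * ‖T‖ * ‖ζ‖ * ‖y‖ := by
    intro T ζ l y
    refine hG (Φ T ζ l) (2 * κ * ‖T‖ * ‖ζ‖) (by positivity) (fun c' v => ?_) y
    rw [hΦ]
    calc ‖⟪ζ, R c' (T (c l v))⟫_ℂ‖ ≤ ‖ζ‖ * ‖R c' (T (c l v))‖ := norm_inner_le_norm _ _
      _ ≤ ‖ζ‖ * (‖R c'‖ * (‖T‖ * ‖c l v‖)) := by
          gcongr
          refine ((R c').le_opNorm _).trans ?_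
          gcongr
          exact T.le_opNorm _
      _ ≤ ‖ζ‖ * ((2 * κ * ‖c'‖) * (‖T‖ * ‖v‖)) := by
          gcongr
          · exact hRn c'
          · exact hc1 l v
      _ = 2 * κ * ‖T‖ * ‖ζ‖ * ‖c'‖ * ‖v‖ := by ring
  have hdense : Dense ((Submodule.span ℂ {y : Q | ∃ c v, y = t c v} : Submodule ℂ Q) : Set Q) :=
    Submodule.dense_iff_topologicalClosure_eq_top.2 hd
  refine ⟨Φ, hΦn, ?_, ?_, ?_, ?_⟩
  · -- convergence
    intro T ζ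
    refine Pool.Agent.Helper133.CD.J11.dense_ind7913 (fun c' v => t c' v) hd
      (fun y => Filter.Tendsto (fun l => Φ T ζ l y) F (nhds 0)) ?_ ?_ ?_ ?_ ?_
    · simp only [map_zero]; exact tendsto_const_nhds
    · intro c' v
      have h1 := hc3 v (ContinuousLinearMap.adjoint ((R c').comp T) ζ)
      refine h1.congr (fun l => ?_)
      rw [ContinuousLinearMap.adjoint_inner_left, hΦ]
      rfl
    · intro x y hx hy
      have := hx.add hy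
      simp only [add_zero] at this
      refine this.congr (fun l => ?_)
      rw [map_add]
    · intro k x hx
      have := hx.const_mul k
      rw [mul_zero] at this
      refine this.congr (fun l => ?_)
      rw [map_smul, smul_eq_mul]
    · intro y hy
      rw [Metric.tendsto_nhds]
      intro ε hε
      have hM : 0 < 2 * κ * ‖T‖ * ‖ζ‖ + 1 := by positivity
      obtain ⟨y', hyy', hy'⟩ := hy (ε / 2 / (2 * κ * ‖T‖ * ‖ζ‖ + 1)) (by positivity)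
      filter_upwards [Metric.tendsto_nhds.1 hy' (ε / 2) (by positivity)] with l hl
      rw [dist_zero_right] at hl ⊢
      have e : Φ T ζ l y = Φ T ζ l y' + Φ T ζ l (y - y') := by rw [map_sub]; ring
      rw [e]
      have h1 : ‖Φ T ζ l (y - y')‖ ≤ ε / 2 := by
        refine (hΦn T ζ l _).trans ?_
        rw [lt_div_iff₀ hM] at hyy'
        have : 0 ≤ ‖y - y'‖ := norm_nonneg _
        nlinarith
      exact lt_of_le_of_lt (norm_add_le _ _) (by linarith)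
  · -- invariance
    intro T ζ l a y haζ
    have hext : (Φ T ζ l).comp (β a) = Φ T ζ l := by
      refine ContinuousLinearMap.ext_on hdense ?_
      rintro y ⟨c', v, rfl⟩
      rw [ContinuousLinearMap.comp_apply, hβt, hΦ, hΦ, hR, hR]
      simp only [zero_smul, zero_add]
      generalize T (c l v) = w
      have e1 : π (c'.1 • a + a * c'.2) w = π a (c'.1 • w + π c'.2 w) := by
        rw [map_add, map_smul, ContinuousLinearMap.add_apply, ContinuousLinearMap.smul_apply, hπ,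
          map_add, map_smul]
      rw [e1, haζ]
    exact congrArg (fun f : Q →L[ℂ] ℂ => f y) hext
  · -- approximation
    intro y l
    revert y
    classical
    refine Pool.Agent.Helper133.CD.J11.dense_ind7913 (fun c' v => t c' v) hd (fun y => ∀ δ : ℝ, 0 < δ →
        ∃ (s : Finset (A × H)) (ε : ℝ), 0 < ε ∧
        ∀ (Z : H →L[ℂ] K) (ζ : K), ‖Z‖ ≤ 2 → ‖ζ‖ = 1 →
          (∀ p ∈ s, ‖Z (ρ p.1 p.2) - π p.1 (Z p.2)‖ ≤ ε ∧ ‖⟪ζ, Z p.2⟫_ℂ - ⟪ξ, p.2⟫_ℂ‖ ≤ ε) →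
          ‖Φ Z ζ l y - ⟪ξ, c l (q y)⟫_ℂ‖ ≤ δ) ?_ ?_ ?_ ?_ ?_
    · intro δ hδ
      refine ⟨∅, 1, one_pos, fun Z ζ _ _ _ => ?_⟩
      simp only [map_zero, inner_zero_right, sub_zero, norm_zero]
      exact hδ.le
    · intro c' v δ hδ
      have hh' : c l (q (t c' v)) = c'.1 • c l v + ρ c'.2 (c l v) := by
        rw [hqt, map_add, map_smul, hc2]
      refine ⟨{(c'.2, c l v), (c'.2, c l (q (t c' v)))}, δ / 2, by positivity, ?_⟩
      intro Z ζ hZ hζ hs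
      have s1 := (hs (c'.2, c l v) (by simp)).1
      have s2 := (hs (c'.2, c l (q (t c' v))) (by simp)).2
      simp only at s1 s2
      rw [hΦ, hR]
      have e : ⟪ζ, c'.1 • Z (c l v) + π c'.2 (Z (c l v))⟫_ℂ - ⟪ξ, c l (q (t c' v))⟫_ℂ
          = (⟪ζ, Z (c l (q (t c' v)))⟫_ℂ - ⟪ξ, c l (q (t c' v))⟫_ℂ)
            - ⟪ζ, Z (ρ c'.2 (c l v)) - π c'.2 (Z (c l v))⟫_ℂ := by
        rw [hh']
        simp only [inner_sub_right, inner_add_right, map_add, map_smul]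
        ring
      rw [e]
      have h3 : ‖⟪ζ, Z (ρ c'.2 (c l v)) - π c'.2 (Z (c l v))⟫_ℂ‖ ≤ δ / 2 := by
        refine (norm_inner_le_norm _ _).trans ?_
        rw [hζ, one_mul]
        exact s1
      calc _ ≤ δ / 2 + δ / 2 := norm_sub_le_of_le s2 h3
        _ = δ := by ring
    · intro x y hx hy δ hδ
      obtain ⟨s1, ε1, hε1, H1⟩ := hx (δ / 2) (by positivity)
      obtain ⟨s2, ε2, hε2, H2⟩ := hy (δ / 2) (by positivity)
      refine ⟨s1 ∪ s2, min ε1 ε2, lt_min hε1 hε2, fun Z ζ hZ hζ hs => ?_⟩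
      have a1 := H1 Z ζ hZ hζ (fun p hp => by
        obtain ⟨b1, b2⟩ := hs p (Finset.mem_union_left _ hp)
        exact ⟨b1.trans (min_le_left _ _), b2.trans (min_le_left _ _)⟩)
      have a2 := H2 Z ζ hZ hζ (fun p hp => by
        obtain ⟨b1, b2⟩ := hs p (Finset.mem_union_right _ hp)
        exact ⟨b1.trans (min_le_right _ _), b2.trans (min_le_right _ _)⟩)
      have e : Φ Z ζ l (x + y) - ⟪ξ, c l (q (x + y))⟫_ℂ
          = (Φ Z ζ l x - ⟪ξ, c l (q x)⟫_ℂ) + (Φ Z ζ l y - ⟪ξ, c l (q y)⟫_ℂ) := by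
        rw [map_add, map_add, map_add, inner_add_right]; ring
      rw [e]
      calc _ ≤ δ / 2 + δ / 2 := norm_add_le_of_le a1 a2
        _ = δ := by ring
    · intro k x hx δ hδ
      obtain ⟨s1, ε1, hε1, H1⟩ := hx (δ / (‖k‖ + 1)) (by positivity)
      refine ⟨s1, ε1, hε1, fun Z ζ hZ hζ hs => ?_⟩
      have a1 := H1 Z ζ hZ hζ hs
      have e : Φ Z ζ l (k • x) - ⟪ξ, c l (q (k • x))⟫_ℂ = k * (Φ Z ζ l x - ⟪ξ, c l (q x)⟫_ℂ) := by
        rw [map_smul, map_smul, map_smul, inner_smul_right, smul_eq_mul]; ring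
      rw [e, norm_mul]
      rw [le_div_iff₀ (by positivity)] at a1
      have : 0 ≤ ‖Φ Z ζ l x - ⟪ξ, c l (q x)⟫_ℂ‖ := norm_nonneg _
      nlinarith
    · intro y hy δ hδ
      have hM : 0 < 2 * (4 * κ + ‖q‖) := by positivity
      obtain ⟨y', hyy', hy'⟩ := hy (δ / (2 * (4 * κ + ‖q‖))) (by positivity)
      obtain ⟨s1, ε1, hε1, H1⟩ := hy' (δ / 2) (by positivity)
      refine ⟨s1, ε1, hε1, fun Z ζ hZ hζ hs => ?_⟩
      have a1 := H1 Z ζ hZ hζ hs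
      have e : Φ Z ζ l y - ⟪ξ, c l (q y)⟫_ℂ = (Φ Z ζ l y' - ⟪ξ, c l (q y')⟫_ℂ)
          + (Φ Z ζ l (y - y') - ⟪ξ, c l (q (y - y'))⟫_ℂ) := by
        rw [map_sub, map_sub, map_sub, inner_sub_right]; ring
      rw [e]
      have h1 : ‖Φ Z ζ l (y - y')‖ ≤ 4 * κ * ‖y - y'‖ := by
        refine (hΦn Z ζ l _).trans ?_
        rw [hζ, mul_one]
        have h5 : 2 * κ * ‖Z‖ ≤ 4 * κ := by nlinarith
        exact mul_le_mul_of_nonneg_right h5 (norm_nonneg _)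
      have h2 : ‖⟪ξ, c l (q (y - y'))⟫_ℂ‖ ≤ ‖q‖ * ‖y - y'‖ := by
        refine (norm_inner_le_norm _ _).trans ?_
        rw [hξ, one_mul]
        exact (hc1 l _).trans (q.le_opNorm _)
      have h3 : ‖Φ Z ζ l (y - y') - ⟪ξ, c l (q (y - y'))⟫_ℂ‖ ≤ δ / 2 := by
        refine (norm_sub_le_of_le h1 h2).trans ?_
        rw [lt_div_iff₀ hM] at hyy'
        nlinarith
      calc _ ≤ δ / 2 + δ / 2 := norm_add_le_of_le a1 h3
        _ = δ := by ring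
  · -- Grothendieck type bound
    intro N g C hC hgw T ζ l hT hζ y
    let G : Q →L[ℂ] ℂ := ∑ i ∈ Finset.range N, ∑ k ∈ Finset.range N, g i k • Φ (T i) (ζ i) (l k)
    have hGy : ∀ y, G y = ∑ i ∈ Finset.range N, ∑ k ∈ Finset.range N, g i k * Φ (T i) (ζ i) (l k) y := by
      intro y
      simp only [G, ContinuousLinearMap.sum_apply, ContinuousLinearMap.smul_apply, smul_eq_mul]
    rw [← hGy]
    refine hG G (4 * κ * C) (by positivity) (fun c' v => ?_) y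
    rw [hGy]
    have e : ∀ i k, Φ (T i) (ζ i) (l k) (t c' v)
        = ⟪ContinuousLinearMap.adjoint ((R c').comp (T i)) (ζ i), c (l k) v⟫_ℂ := by
      intro i k
      rw [ContinuousLinearMap.adjoint_inner_left, hΦ]
      rfl
    simp only [e]
    refine (hgw (fun i => ContinuousLinearMap.adjoint ((R c').comp (T i)) (ζ i))
      (fun k => c (l k) v) (4 * κ * ‖c'‖) ‖v‖ (fun i => ?_) (fun k => hc1 _ _)).trans
      (le_of_eq (by ring))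
    refine (ContinuousLinearMap.le_opNorm _ _).trans ?_
    rw [LinearIsometryEquiv.norm_map]
    have h1 : ‖(R c').comp (T i)‖ ≤ 4 * κ * ‖c'‖ := by
      refine (ContinuousLinearMap.opNorm_comp_le _ _).trans ?_
      calc ‖R c'‖ * ‖T i‖ ≤ (2 * κ * ‖c'‖) * 2 := by
            gcongr
            · exact hRn c'
            · exact hT i
        _ = 4 * κ * ‖c'‖ := by ring
    calc ‖(R c').comp (T i)‖ * ‖ζ i‖ ≤ (4 * κ * ‖c'‖) * 1 := by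
          gcongr
          exact hζ i
      _ = 4 * κ * ‖c'‖ := mul_one _

end Pool.Agent.Y268.GD.S1
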