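import Mathlib
import Pool.Agent.Helper133.CD.R1
import Pool.Agent.Helper133.CD.R2
import Pool.Agent.Y268.GD.S2
import Pool.Agent.Y268.GD.S3

set_option autoImplicit false

/-!
Banach algebras which contain an infinite-dimensional C*-algebra and map to a C*-algebra.
-/

namespace Pool.Agent.Y268.GD

open Pool.Agent.Helper133.CD

universe u

theorem not_lifts_sandwich {A B C : Type u} [NonUnitalNormedRing A] [NormedSpace ℂ A]
    [IsScalarTower ℂ A A] [SMulCommClass ℂ A A] [NonUnitalCStarAlgebra B]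
    [NonUnitalCStarAlgebra C] (hC : ¬ FiniteDimensional ℂ C) (i : C →L[ℂ] A) (φ : A →L[ℂ] B)
    (hi : ∀ x y, i (x * y) = i x * i y) (hφ : ∀ x y, φ (x * y) = φ x * φ y)
    (hst : ∀ x, φ (i (star x)) = star (φ (i x))) (hinj : ∀ x, φ (i x) = 0 → x = 0) :
    ¬ Lifts A := by
  intro hL
  obtain ⟨a, b, ha1, ha2, hb, hab, ha3⟩ := exists_orth C hC
  let j : C →⋆ₙₐ[ℂ] B :=
    { toFun := fun x => φ (i x)
      map_smul' := fun c x => by rw [map_smul, map_smul]; rfl
      map_zero' := by rw [map_zero, map_zero]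
      map_add' := fun x y => by rw [map_add, map_add]
      map_mul' := fun x y => by rw [hi, hφ]
      map_star' := hst }
  have hj : ∀ x, j x = φ (i x) := fun x => rfl
  obtain ⟨d, hd⟩ := exists_data_orth B (fun n => φ (i (a n))) (fun n => φ (i (b n)))
    (fun n => by
      show star (φ (i (a n))) = φ (i (a n))
      rw [← hst, (ha1 n).star_eq])
    (fun n => (NonUnitalStarAlgHom.norm_apply_le j (a n)).trans (ha2 n))
    (fun n h => hb n (hinj _ h))
    (fun n => by rw [← hφ, ← hi, hab])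
    (fun m n hmn => by rw [← hφ, ← hi, ha3 m n hmn, map_zero, map_zero])
  refine core_sandwich d φ hφ (fun n => i (a n)) (fun n => by rw [hd])
    (fun m n hmn => by
      show i (a m) * i (a n) = 0
      rw [← hi, ha3 m n hmn, map_zero])
    (max 1 (max ‖φ‖ ‖i‖)) (le_max_left _ _) (fun x => ?_) (fun s c hc => ?_) hL
  · refine (φ.le_opNorm x).trans ?_
    gcongr
    exact (le_max_left _ _).trans (le_max_right _ _)
  · have h1 : ∑ n ∈ s, c n • i (a n) = i (∑ n ∈ s, c n • a n) := by
      rw [map_sum]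
      exact Finset.sum_congr rfl fun n _ => by rw [map_smul]
    rw [h1]
    have h2 := J5.norm_orth_sum_le C a ha1 ha2 ha3 s c hc
    refine (i.le_opNorm _).trans ?_
    calc ‖i‖ * ‖∑ n ∈ s, c n • a n‖ ≤ ‖i‖ * 1 := by gcongr
      _ = ‖i‖ := mul_one _
      _ ≤ _ := (le_max_right _ _).trans (le_max_right _ _)

/-- The dimension theorem for sandwiched algebras. -/
theorem dims_sandwich {A B C : Type u} [NonUnitalNormedRing A] [NormedSpace ℂ A]
    [IsScalarTower ℂ A A] [SMulCommClass ℂ A A] [CompleteSpace A] [NonUnitalCStarAlgebra B]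
    [NonUnitalCStarAlgebra C] (hC : ¬ FiniteDimensional ℂ C) (i : C →L[ℂ] A) (φ : A →L[ℂ] B)
    (hi : ∀ x y, i (x * y) = i x * i y) (hφ : ∀ x y, φ (x * y) = φ x * φ y)
    (hst : ∀ x, φ (i (star x)) = star (φ (i x))) (hinj : ∀ x, φ (i x) = 0 → x = 0) :
    1 < dg A ∧ 1 < db A :=
  ⟨not_le.1 fun h => not_lifts_sandwich hC i φ hi hφ hst hinj (lifts_of_dg_le A h),
    not_le.1 fun h => not_lifts_sandwich hC i φ hi hφ hst hinj (lifts_of_db_le A h)⟩

end Pool.Agent.Y268.GD
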