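import Mathlib

set_option autoImplicit false

/-!
Dixmier-Day unitarisation of bounded commuting sequences of operators.
-/

namespace Pool.Agent.Y268.GD

open scoped InnerProductSpace
open Filter Topology

universe u

variable {K : Type u} [NormedAddCommGroup K] [InnerProductSpace ℂ K]

/-- forms which are uniformly bounded and coercive along a set of operators -/
def Good (𝒢 : Set (K →L[ℂ] K)) (L : ℝ) (F : K → K → ℂ) : Prop :=
  (∀ x x' y, F (x + x') y = F x y + F x' y) ∧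
  (∀ (c : ℂ) x y, F (c • x) y = (starRingEnd ℂ) c * F x y) ∧
  (∀ x y, (starRingEnd ℂ) (F x y) = F y x) ∧
  (∀ g ∈ 𝒢, ∀ x y, ‖F (g x) (g y)‖ ≤ L * (‖x‖ ^ 2 + ‖y‖ ^ 2)) ∧
  (∀ g ∈ 𝒢, ∀ x, ‖x‖ ^ 2 ≤ L * (F (g x) (g x)).re)

theorem good_limit (𝒢 : Set (K →L[ℂ] K)) (h1 : 1 ∈ 𝒢) (L : ℝ) (Fs : ℕ → K → K → ℂ)
    (h : ∀ n, Good 𝒢 L (Fs n)) :
    ∃ G : K → K → ℂ, Good 𝒢 L G ∧
      ∀ x y, Tendsto (fun n => Fs n x y) (hyperfilter ℕ : Filter ℕ) (nhds (G x y)) := by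
  have hlim : ∀ x y, ∃ l : ℂ, Tendsto (fun n => Fs n x y) (hyperfilter ℕ : Filter ℕ) (nhds l) := by
    intro x y
    have hc : IsCompact (Metric.closedBall (0 : ℂ) (L * (‖x‖ ^ 2 + ‖y‖ ^ 2))) :=
      isCompact_closedBall _ _
    have h2 : ∀ n, Fs n x y ∈ Metric.closedBall (0 : ℂ) (L * (‖x‖ ^ 2 + ‖y‖ ^ 2)) := fun n => by
      rw [mem_closedBall_zero_iff]
      exact (h n).2.2.2.1 1 h1 x y
    obtain ⟨l, _, hl⟩ := hc.ultrafilter_le_nhds ((hyperfilter ℕ).map fun n => Fs n x y) (by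
      rw [le_principal_iff, Ultrafilter.coe_map, Filter.mem_map]
      exact Filter.univ_mem' h2)
    exact ⟨l, hl⟩
  choose G hG using hlim
  refine ⟨G, ⟨fun x x' y => ?_, fun c x y => ?_, fun x y => ?_, fun g hg x y => ?_,
    fun g hg x => ?_⟩, hG⟩
  · refine tendsto_nhds_unique (hG _ _) (((hG x y).add (hG x' y)).congr fun n => ?_)
    rw [(h n).1]
  · refine tendsto_nhds_unique (hG _ _) (((hG x y).const_mul _).congr fun n => ?_)
    rw [(h n).2.1]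
  · refine tendsto_nhds_unique ((Complex.continuous_conj.tendsto _).comp (hG x y)) ?_
    refine (hG y x).congr fun n => ?_
    exact ((h n).2.2.1 x y).symm
  · exact le_of_tendsto (hG _ _).norm (Filter.Eventually.of_forall fun n =>
      (h n).2.2.2.1 g hg x y)
  · have h1 : Tendsto (fun n => L * (Fs n (g x) (g x)).re) (hyperfilter ℕ : Filter ℕ)
        (nhds (L * (G (g x) (g x)).re)) :=
      ((Complex.continuous_re.tendsto _).comp (hG _ _)).const_mul _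
    exact ge_of_tendsto h1 (Filter.Eventually.of_forall fun n => (h n).2.2.2.2 g hg x)

/-- the averages of a form along the powers of an operator -/
noncomputable def Av (F : K → K → ℂ) (u : K →L[ℂ] K) (N : ℕ) (x y : K) : ℂ :=
  ((N : ℂ) + 1)⁻¹ * ∑ k ∈ Finset.range (N + 1), F ((u ^ k) x) ((u ^ k) y)

theorem good_average (𝒢 : Set (K →L[ℂ] K)) (L : ℝ) (F : K → K → ℂ) (hF : Good 𝒢 L F)
    (u : K →L[ℂ] K) (hu : ∀ g ∈ 𝒢, u * g ∈ 𝒢) (N : ℕ) : Good 𝒢 L (Av F u N) := by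
  have hpow : ∀ k, ∀ g ∈ 𝒢, u ^ k * g ∈ 𝒢 := by
    intro k
    induction k with
    | zero => intro g hg; rwa [pow_zero, one_mul]
    | succ k ih => intro g hg; rw [pow_succ, mul_assoc]; exact ih _ (hu g hg)
  have hN : (0 : ℝ) < (N : ℝ) + 1 := by positivity
  have hN' : (((N : ℂ) + 1)⁻¹) = (((N : ℝ) + 1)⁻¹ : ℝ) := by push_cast; rfl
  have hcN : ‖((N : ℂ) + 1)⁻¹‖ = ((N : ℝ) + 1)⁻¹ := by
    rw [hN', Complex.norm_real, Real.norm_of_nonneg (by positivity)]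
  refine ⟨fun x x' y => ?_, fun c x y => ?_, fun x y => ?_, fun g hg x y => ?_, fun g hg x => ?_⟩
  · simp only [Av, map_add, hF.1, Finset.sum_add_distrib, mul_add]
  · simp only [Av, map_smul, hF.2.1, ← Finset.mul_sum]
    ring
  · simp only [Av]
    rw [map_mul, map_sum, hN', Complex.conj_ofReal]
    congr 1
    exact Finset.sum_congr rfl fun k _ => hF.2.2.1 _ _
  · have h1 : ‖∑ k ∈ Finset.range (N + 1), F ((u ^ k) (g x)) ((u ^ k) (g y))‖ ≤
        ((N : ℝ) + 1) * (L * (‖x‖ ^ 2 + ‖y‖ ^ 2)) := by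
      refine (norm_sum_le _ _).trans ?_
      have h2 : ∀ k ∈ Finset.range (N + 1), ‖F ((u ^ k) (g x)) ((u ^ k) (g y))‖ ≤
          L * (‖x‖ ^ 2 + ‖y‖ ^ 2) := fun k _ => hF.2.2.2.1 _ (hpow k g hg) x y
      refine (Finset.sum_le_sum h2).trans ?_
      rw [Finset.sum_const, Finset.card_range, nsmul_eq_mul]
      push_cast
      rfl
    rw [Av, norm_mul, hcN, inv_mul_le_iff₀ hN]
    exact h1
  · have h1 : ((N : ℝ) + 1) * ‖x‖ ^ 2 ≤
        L * ∑ k ∈ Finset.range (N + 1), (F ((u ^ k) (g x)) ((u ^ k) (g x))).re := by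
      have h2 : ∀ k ∈ Finset.range (N + 1), ‖x‖ ^ 2 ≤
          L * (F ((u ^ k) (g x)) ((u ^ k) (g x))).re := fun k _ =>
        hF.2.2.2.2 _ (hpow k g hg) x
      have h3 := Finset.sum_le_sum h2
      rw [Finset.sum_const, Finset.card_range, nsmul_eq_mul, ← Finset.mul_sum, Nat.cast_add,
        Nat.cast_one] at h3
      exact h3
    rw [Av, hN', Complex.re_ofReal_mul, Complex.re_sum]
    calc ‖x‖ ^ 2 = ((N : ℝ) + 1)⁻¹ * (((N : ℝ) + 1) * ‖x‖ ^ 2) := by field_simp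
      _ ≤ ((N : ℝ) + 1)⁻¹ *
          (L * ∑ k ∈ Finset.range (N + 1), (F ((u ^ k) (g x)) ((u ^ k) (g x))).re) := by gcongr
      _ = _ := by ring

/-- One step: a form invariant under one more operator. -/
theorem good_step (𝒢 : Set (K →L[ℂ] K)) (h1 : 1 ∈ 𝒢) (L : ℝ) (F : K → K → ℂ) (hF : Good 𝒢 L F)
    (u : K →L[ℂ] K) (hu : ∀ g ∈ 𝒢, u * g ∈ 𝒢) :
    ∃ G : K → K → ℂ, Good 𝒢 L G ∧ (∀ x y, G (u x) (u y) = G x y) ∧
      ∀ w : K →L[ℂ] K, u * w = w * u → (∀ x y, F (w x) (w y) = F x y) →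
        ∀ x y, G (w x) (w y) = G x y := by
  obtain ⟨G, hG, hl⟩ := good_limit 𝒢 h1 L (Av F u) (good_average 𝒢 L F hF u hu)
  have hpow : ∀ k, u ^ k ∈ 𝒢 := by
    intro k
    induction k with
    | zero => rwa [pow_zero]
    | succ k ih => rw [pow_succ']; exact hu _ ih
  refine ⟨G, hG, fun x y => ?_, fun w hw hFw x y => ?_⟩
  · have hd : Tendsto (fun N => Av F u N (u x) (u y) - Av F u N x y) (hyperfilter ℕ : Filter ℕ)
        (nhds 0) := by
      refine Tendsto.mono_left ?_ Nat.hyperfilter_le_atTop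
      have hb : ∀ N : ℕ, ‖Av F u N (u x) (u y) - Av F u N x y‖ ≤
          (2 * (L * (‖x‖ ^ 2 + ‖y‖ ^ 2))) * (1 / ((N : ℝ) + 1)) := by
        intro N
        have e1 : ∑ k ∈ Finset.range (N + 1), F ((u ^ k) (u x)) ((u ^ k) (u y)) =
            ∑ k ∈ Finset.range (N + 1), F ((u ^ (k + 1)) x) ((u ^ (k + 1)) y) :=
          Finset.sum_congr rfl fun k _ => by rw [pow_succ]; rfl
        have e2 : ∑ k ∈ Finset.range (N + 1), F ((u ^ (k + 1)) x) ((u ^ (k + 1)) y) -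
            ∑ k ∈ Finset.range (N + 1), F ((u ^ k) x) ((u ^ k) y) =
            F ((u ^ (N + 1)) x) ((u ^ (N + 1)) y) - F ((u ^ 0) x) ((u ^ 0) y) := by
          rw [← Finset.sum_sub_distrib]
          exact Finset.sum_range_sub (fun k => F ((u ^ k) x) ((u ^ k) y)) (N + 1)
        have e3 : Av F u N (u x) (u y) - Av F u N x y = ((N : ℂ) + 1)⁻¹ *
            (F ((u ^ (N + 1)) x) ((u ^ (N + 1)) y) - F ((u ^ 0) x) ((u ^ 0) y)) := by
          rw [Av, Av, ← mul_sub, e1, e2]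
        have hcN : ‖((N : ℂ) + 1)⁻¹‖ = 1 / ((N : ℝ) + 1) := by
          rw [show (((N : ℂ) + 1)⁻¹) = (((N : ℝ) + 1)⁻¹ : ℝ) by push_cast; rfl,
            Complex.norm_real, Real.norm_of_nonneg (by positivity), one_div]
        rw [e3, norm_mul, hcN, mul_comm]
        have h2 := hF.2.2.2.1 _ (hpow (N + 1)) x y
        have h3 := hF.2.2.2.1 _ (hpow 0) x y
        have h4 := norm_sub_le (F ((u ^ (N + 1)) x) ((u ^ (N + 1)) y)) (F ((u ^ 0) x) ((u ^ 0) y))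
        gcongr
        linarith
      refine squeeze_zero_norm hb ?_
      have := (tendsto_one_div_add_atTop_nhds_zero_nat (𝕜 := ℝ)).const_mul
        (2 * (L * (‖x‖ ^ 2 + ‖y‖ ^ 2)))
      rwa [mul_zero] at this
    have h2 := tendsto_nhds_unique ((hl (u x) (u y)).sub (hl x y)) hd
    exact sub_eq_zero.1 h2
  · refine tendsto_nhds_unique (hl _ _) ((hl x y).congr fun N => ?_)
    rw [Av, Av]
    congr 1
    refine Finset.sum_congr rfl fun k _ => ?_
    have hk : u ^ k * w = w * u ^ k := (show Commute u w from hw).pow_left k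
    have e1 : ∀ z, (u ^ k) (w z) = w ((u ^ k) z) := fun z => by
      have := congrArg (fun f : K →L[ℂ] K => f z) hk
      exact this
    rw [e1, e1, hFw]

/-- An invariant form for a commuting sequence. -/
theorem exists_invariant_form (𝒢 : Set (K →L[ℂ] K)) (h1 : 1 ∈ 𝒢) (L : ℝ) (hL : 1 ≤ L)
    (hg : ∀ g ∈ 𝒢, ∀ x, ‖g x‖ ^ 2 ≤ L * ‖x‖ ^ 2) (hg' : ∀ g ∈ 𝒢, ∀ x, ‖x‖ ^ 2 ≤ L * ‖g x‖ ^ 2)
    (u : ℕ → K →L[ℂ] K) (hu : ∀ n, ∀ g ∈ 𝒢, u n * g ∈ 𝒢) (hc : ∀ m n, u m * u n = u n * u m) :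
    ∃ G : K → K → ℂ, Good 𝒢 L G ∧ ∀ n x y, G (u n x) (u n y) = G x y := by
  have hL0 : 0 ≤ L := zero_le_one.trans hL
  have hP : ∀ n : ℕ, ∃ F : K → K → ℂ, Good 𝒢 L F ∧ ∀ m < n, ∀ x y, F (u m x) (u m y) = F x y := by
    intro n
    induction n with
    | zero =>
      refine ⟨fun x y => ⟪x, y⟫_ℂ, ⟨fun x x' y => inner_add_left _ _ _,
        fun c x y => inner_smul_left _ _ _, fun x y => inner_conj_symm _ _, fun g hgg x y => ?_,
        fun g hgg x => ?_⟩, fun m hm => absurd hm (Nat.not_lt_zero m)⟩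
      · have h2 := norm_inner_le_norm (𝕜 := ℂ) (g x) (g y)
        have h3 := hg g hgg x
        have h4 := hg g hgg y
        have h5 := sq_nonneg (‖g x‖ - ‖g y‖)
        have h6 : 0 ≤ L * (‖x‖ ^ 2 + ‖y‖ ^ 2) := by positivity
        nlinarith
      · have h2 := hg' g hgg x
        show ‖x‖ ^ 2 ≤ L * (⟪g x, g x⟫_ℂ).re
        have h3 : (⟪g x, g x⟫_ℂ).re = ‖g x‖ ^ 2 := by
          rw [inner_self_eq_norm_sq_to_K]
          norm_cast
        rw [h3]
        exact h2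
    | succ n ih =>
      obtain ⟨F, hF, hFi⟩ := ih
      obtain ⟨G, hG, hGu, hGw⟩ := good_step 𝒢 h1 L F hF (u n) (hu n)
      refine ⟨G, hG, fun m hm x y => ?_⟩
      rcases Nat.lt_succ_iff_lt_or_eq.1 hm with h | h
      · exact hGw (u m) (hc n m) (hFi m h) x y
      · subst h; exact hGu x y
  choose Fs hFs hFi using hP
  obtain ⟨G, hG, hl⟩ := good_limit 𝒢 h1 L Fs hFs
  refine ⟨G, hG, fun m x y => ?_⟩
  refine tendsto_nhds_unique (hl _ _) ((hl x y).congr' ?_)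
  have h1 : ∀ᶠ n in (hyperfilter ℕ : Filter ℕ), m < n :=
    Nat.hyperfilter_le_atTop (eventually_gt_atTop m)
  filter_upwards [h1] with n hn
  exact (hFi n m hn x y).symm

end Pool.Agent.Y268.GD
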