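import Mathlib
import Pool.Agent.Y268.GD.V1

set_option autoImplicit false

/-!
Dixmier-Day unitarisation: the similarity.
-/

namespace Pool.Agent.Y268.GD

open scoped InnerProductSpace
open Filter Topology

universe u

variable {K : Type u} [NormedAddCommGroup K] [InnerProductSpace ℂ K]

theorem op_of_form [CompleteSpace K] (G : K → K → ℂ) (C : ℝ) (hC : 0 < C)
    (hadd : ∀ x x' y, G (x + x') y = G x y + G x' y)
    (hsm : ∀ (c : ℂ) x y, G (c • x) y = (starRingEnd ℂ) c * G x y)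
    (hcj : ∀ x y, (starRingEnd ℂ) (G x y) = G y x)
    (hle : ∀ x y, ‖G x y‖ ≤ C * (‖x‖ ^ 2 + ‖y‖ ^ 2))
    (hge : ∀ x, ‖x‖ ^ 2 ≤ C * (G x x).re) :
    ∃ T : K →L[ℂ] K, 0 ≤ T ∧ IsUnit T ∧ ∀ x y, ⟪T x, y⟫_ℂ = G x y := by
  have hadd' : ∀ x y y', G x (y + y') = G x y + G x y' := fun x y y' => by
    rw [← hcj, hadd, map_add, hcj, hcj]
  have hsm' : ∀ (c : ℂ) x y, G x (c • y) = c * G x y := fun c x y => by
    rw [← hcj, hsm, map_mul, hcj, Complex.conj_conj]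
  have h00 : ∀ y, G 0 y = 0 := fun y => by
    have := hsm 0 0 y
    rwa [zero_smul, map_zero, zero_mul] at this
  have h00' : ∀ x, G x 0 = 0 := fun x => by
    have := hsm' 0 x 0
    rwa [zero_smul, zero_mul] at this
  have hnorm : ∀ x y, ‖G x y‖ ≤ 2 * C * ‖x‖ * ‖y‖ := by
    intro x y
    rcases eq_or_ne x 0 with rfl | hx
    · rw [h00]; simp
    rcases eq_or_ne y 0 with rfl | hy
    · rw [h00']; simp
    have h1 := hle ((‖x‖ : ℂ)⁻¹ • x) ((‖y‖ : ℂ)⁻¹ • y)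
    have h2 : ‖(‖x‖ : ℂ)⁻¹ • x‖ = 1 := by
      rw [norm_smul, norm_inv, Complex.norm_real, norm_norm]
      exact inv_mul_cancel₀ (norm_ne_zero_iff.2 hx)
    have h3 : ‖(‖y‖ : ℂ)⁻¹ • y‖ = 1 := by
      rw [norm_smul, norm_inv, Complex.norm_real, norm_norm]
      exact inv_mul_cancel₀ (norm_ne_zero_iff.2 hy)
    rw [h2, h3, hsm, hsm', norm_mul, norm_mul, RCLike.norm_conj, norm_inv, norm_inv,
      Complex.norm_real, Complex.norm_real, norm_norm, norm_norm] at h1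
    have hxp := norm_pos_iff.2 hx
    have hyp := norm_pos_iff.2 hy
    have h4 : ‖G x y‖ = ‖x‖ * ‖y‖ * (‖x‖⁻¹ * (‖y‖⁻¹ * ‖G x y‖)) := by
      field_simp
    rw [h4]
    calc ‖x‖ * ‖y‖ * (‖x‖⁻¹ * (‖y‖⁻¹ * ‖G x y‖)) ≤
          ‖x‖ * ‖y‖ * (C * (1 ^ 2 + 1 ^ 2)) := by gcongr
      _ = 2 * C * ‖x‖ * ‖y‖ := by ring
  let B : K →L⋆[ℂ] K →L[ℂ] ℂ := LinearMap.mkContinuous₂
    (LinearMap.mk₂'ₛₗ (starRingEnd ℂ) (RingHom.id ℂ) G hadd (fun c x y => by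
      rw [hsm, smul_eq_mul]) hadd' (fun c x y => by rw [hsm', smul_eq_mul]; rfl))
    (2 * C) hnorm
  let T : K →L[ℂ] K := InnerProductSpace.continuousLinearMapOfBilin B
  have hT : ∀ x y, ⟪T x, y⟫_ℂ = G x y := fun x y =>
    InnerProductSpace.continuousLinearMapOfBilin_apply B x y
  have hG0 : ∀ x, 0 ≤ (G x x).re := fun x => by
    have h1 := hge x
    by_contra h
    push Not at h
    nlinarith [sq_nonneg ‖x‖]
  have hsym : ∀ x y, ⟪T x, y⟫_ℂ = ⟪x, T y⟫_ℂ := fun x y => by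
    rw [hT, ← inner_conj_symm x (T y), hT, hcj]
  have hTpos : 0 ≤ T := by
    rw [ContinuousLinearMap.nonneg_iff_isPositive]
    refine ⟨hsym, fun x => ?_⟩
    rw [ContinuousLinearMap.reApplyInnerSelf_apply, hT]
    exact hG0 x
  refine ⟨T, hTpos, ?_, hT⟩
  have hc : (0 : ℝ) < C⁻¹ := by positivity
  refine ContinuousLinearMap.isUnit_of_forall_le_norm_inner_map T
    (c := ⟨C⁻¹, hc.le⟩) hc fun x => ?_
  rw [hT]
  have h1 := hge x
  have h2 : (G x x).re ≤ ‖G x x‖ := Complex.re_le_norm _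
  show ‖x‖ ^ 2 * C⁻¹ ≤ ‖G x x‖
  rw [← div_eq_mul_inv, div_le_iff₀ hC]
  nlinarith

/-- Unitarisation of a commuting sequence `u n` of invertible operators with inverses `v n` in a
bounded set of operators. -/
theorem exists_unitarisation [CompleteSpace K] (𝒢 : Set (K →L[ℂ] K)) (h1 : 1 ∈ 𝒢) (L : ℝ)
    (hL : 1 ≤ L) (hg : ∀ g ∈ 𝒢, ∀ x, ‖g x‖ ^ 2 ≤ L * ‖x‖ ^ 2)
    (hg' : ∀ g ∈ 𝒢, ∀ x, ‖x‖ ^ 2 ≤ L * ‖g x‖ ^ 2)
    (u v : ℕ → K →L[ℂ] K) (hu : ∀ n, ∀ g ∈ 𝒢, u n * g ∈ 𝒢) (hc : ∀ m n, u m * u n = u n * u m)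
    (huv : ∀ n, u n * v n = 1) :
    ∃ S R : K →L[ℂ] K, S * R = 1 ∧ R * S = 1 ∧ ∀ m, star (S * u m * R) = S * v m * R := by
  obtain ⟨G, ⟨hadd, hsm, hcj, hle, hge⟩, hinv⟩ :=
    exists_invariant_form 𝒢 h1 L hL hg hg' u hu hc
  obtain ⟨T, hT0, hTu, hT⟩ := op_of_form G L (lt_of_lt_of_le one_pos hL) hadd hsm hcj
    (fun x y => hle 1 h1 x y) (fun x => hge 1 h1 x)
  have hTe : ∀ m, star (u m) * T * u m = T := by
    intro m
    ext x
    refine ext_inner_right ℂ fun y => ?_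
    show ⟪(ContinuousLinearMap.adjoint (u m)) (T (u m x)), y⟫_ℂ = ⟪T x, y⟫_ℂ
    rw [ContinuousLinearMap.adjoint_inner_left, hT, hT, hinv]
  have hS0 : (0 : K →L[ℂ] K) ≤ CFC.sqrt T := CFC.sqrt_nonneg T
  have hSS : CFC.sqrt T * CFC.sqrt T = T := CFC.sqrt_mul_sqrt_self T hT0
  have hSu : IsUnit (CFC.sqrt T) := (CFC.isUnit_sqrt_iff T hT0).2 hTu
  have hSs : star (CFC.sqrt T) = CFC.sqrt T := (IsSelfAdjoint.of_nonneg hS0).star_eq
  obtain ⟨w, hw⟩ := hSu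
  have k1 : CFC.sqrt T * (↑w⁻¹ : K →L[ℂ] K) = 1 := by rw [← hw]; exact w.mul_inv
  have k2 : (↑w⁻¹ : K →L[ℂ] K) * CFC.sqrt T = 1 := by rw [← hw]; exact w.inv_mul
  have k3 : star (↑w⁻¹ : K →L[ℂ] K) = (↑w⁻¹ : K →L[ℂ] K) := by
    have h4 : star (↑w⁻¹ : K →L[ℂ] K) * CFC.sqrt T = 1 := by
      have := congrArg star k1
      rwa [star_mul, hSs, star_one] at this
    calc star (↑w⁻¹ : K →L[ℂ] K) = star (↑w⁻¹ : K →L[ℂ] K) * (CFC.sqrt T * ↑w⁻¹) := by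
          rw [k1, mul_one]
      _ = ↑w⁻¹ := by rw [← mul_assoc, h4, one_mul]
  refine ⟨CFC.sqrt T, ↑w⁻¹, k1, k2, fun m => ?_⟩
  set S := CFC.sqrt T with hS
  set R : K →L[ℂ] K := ↑w⁻¹ with hR
  have e1 : star (S * u m * R) * (S * u m * R) = 1 := by
    rw [star_mul, star_mul, k3, hSs]
    calc R * (star (u m) * S) * (S * u m * R) = R * (star (u m) * (S * S) * u m) * R := by
          simp only [mul_assoc]
      _ = R * S * (S * R) := by rw [hSS, hTe, ← hSS]; simp only [mul_assoc]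
      _ = 1 := by rw [k1, k2, mul_one]
  have e2 : (S * u m * R) * (S * v m * R) = 1 := by
    calc (S * u m * R) * (S * v m * R) = S * u m * (R * S) * (v m * R) := by
          simp only [mul_assoc]
      _ = S * (u m * v m) * R := by rw [k2, mul_one]; simp only [mul_assoc]
      _ = 1 := by rw [huv, mul_one, k1]
  calc star (S * u m * R) = star (S * u m * R) * ((S * u m * R) * (S * v m * R)) := by
        rw [e2, mul_one]
    _ = S * v m * R := by rw [← mul_assoc, e1, one_mul]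

end Pool.Agent.Y268.GD
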