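import Mathlib
import Pool.Agent.Helper133.CD.R1
import Pool.Agent.Helper133.CD.R2
import Pool.Agent.Y268.GD.S2
import Pool.Agent.Y268.GD.S3
import Pool.Agent.Y268.GD.V2

set_option autoImplicit false

/-!
Banach algebras which contain an infinite-dimensional C*-algebra on which a Hilbert space
representation is injective.
-/

namespace Pool.Agent.Y268.GD

open Pool.Agent.Helper133.CD

universe u

/-- the extension of a homomorphism to the unitization -/
noncomputable def ext1 {C : Type u} [NonUnitalCStarAlgebra C] {K : Type u} [NormedAddCommGroup K]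
    [InnerProductSpace ℂ K] (σ : C →L[ℂ] K →L[ℂ] K) (w : Unitization ℂ C) : K →L[ℂ] K :=
  w.fst • (1 : K →L[ℂ] K) + σ w.snd

section

variable {C : Type u} [NonUnitalCStarAlgebra C] {K : Type u} [NormedAddCommGroup K]
    [InnerProductSpace ℂ K] (σ : C →L[ℂ] K →L[ℂ] K)

theorem ext1_one : ext1 σ 1 = 1 := by
  rw [ext1, Unitization.fst_one, Unitization.snd_one, map_zero, one_smul, add_zero]

theorem ext1_add (v w : Unitization ℂ C) : ext1 σ (v + w) = ext1 σ v + ext1 σ w := by
  rw [ext1, ext1, ext1, Unitization.fst_add, Unitization.snd_add, map_add, add_smul]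
  abel

theorem ext1_inr (c : C) : ext1 σ (c : Unitization ℂ C) = σ c := by
  rw [ext1, Unitization.fst_inr, Unitization.snd_inr, zero_smul, zero_add]

theorem ext1_mul (hσ : ∀ a b, σ (a * b) = σ a * σ b) (v w : Unitization ℂ C) :
    ext1 σ (v * w) = ext1 σ v * ext1 σ w := by
  rw [ext1, ext1, ext1, Unitization.fst_mul, Unitization.snd_mul, map_add, map_add, map_smul,
    map_smul, hσ, add_mul, mul_add, mul_add, smul_mul_assoc, smul_mul_assoc, one_mul, one_mul,
    mul_smul_comm, mul_one, smul_smul]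
  abel

theorem ext1_norm (w : Unitization ℂ C) (x : K) :
    ‖ext1 σ w x‖ ≤ (1 + 2 * ‖σ‖) * ‖w‖ * ‖x‖ := by
  have h1 : ‖w.fst‖ ≤ ‖w‖ := by
    have h := Unitization.norm_eq_sup (𝕜 := ℂ) (A := C) w
    rw [h]
    exact le_sup_left
  have h2 : ‖w.snd‖ ≤ 2 * ‖w‖ := by
    have e : ((w.snd : C) : Unitization ℂ C) = w - algebraMap ℂ (Unitization ℂ C) w.fst := by
      rw [Unitization.algebraMap_eq_inl, eq_sub_iff_add_eq']
      exact Unitization.inl_fst_add_inr_snd_eq w
    have h3 : ‖((w.snd : C) : Unitization ℂ C)‖ = ‖w.snd‖ := Unitization.norm_inr (𝕜 := ℂ) w.snd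
    have h4 : ‖algebraMap ℂ (Unitization ℂ C) w.fst‖ = ‖w.fst‖ := norm_algebraMap' _ _
    rw [← h3, e]
    refine (norm_sub_le _ _).trans ?_
    rw [h4]
    linarith
  calc ‖ext1 σ w x‖ = ‖w.fst • x + σ w.snd x‖ := rfl
    _ ≤ ‖w.fst • x‖ + ‖σ w.snd x‖ := norm_add_le _ _
    _ ≤ ‖w‖ * ‖x‖ + ‖σ‖ * (2 * ‖w‖) * ‖x‖ := by
        refine add_le_add ?_ ?_
        · rw [norm_smul]; gcongr
        · refine ((σ w.snd).le_opNorm x).trans ?_
          gcongr
          exact (σ.le_opNorm _).trans (by gcongr)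
    _ = (1 + 2 * ‖σ‖) * ‖w‖ * ‖x‖ := by ring

end

/-- A bounded homomorphism of a C*-algebra into `B(K)` can be made self-adjoint and contractive on
an orthogonal sequence. -/
theorem exists_similarity_cstar {C : Type u} [NonUnitalCStarAlgebra C] {K : Type u}
    [NormedAddCommGroup K] [InnerProductSpace ℂ K] [CompleteSpace K] (σ : C →L[ℂ] K →L[ℂ] K)
    (hσ : ∀ a b, σ (a * b) = σ a * σ b) (a : ℕ → C) (ha1 : ∀ n, IsSelfAdjoint (a n))
    (ha2 : ∀ n, ‖a n‖ ≤ 1) (ha3 : ∀ m n, m ≠ n → a m * a n = 0) :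
    ∃ S R : K →L[ℂ] K, S * R = 1 ∧ R * S = 1 ∧
      (∀ m, star (S * σ (a m) * R) = S * σ (a m) * R) ∧ ∀ m, ‖S * σ (a m) * R‖ ≤ 1 := by
  classical
  have hsa : ∀ n, IsSelfAdjoint ((a n : C) : Unitization ℂ C) := fun n => by
    show star ((a n : C) : Unitization ℂ C) = _
    rw [← Unitization.inr_star, (ha1 n).star_eq]
  have hna : ∀ n, ‖((a n : C) : Unitization ℂ C)‖ ≤ 1 := fun n => by
    rw [Unitization.norm_inr]; exact ha2 n
  let b : ℕ → Unitization ℂ C := fun n => CFC.sqrt (1 - ((a n : C) : Unitization ℂ C) ^ 2)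
  let w : ℕ → Unitization ℂ C := fun n => (a n : Unitization ℂ C) + Complex.I • b n
  have hw : ∀ n, w n ∈ unitary (Unitization ℂ C) := fun n =>
    IsSelfAdjoint.self_add_I_smul_cfcSqrt_sub_sq_mem_unitary _ (hsa n) (hna n)
  have hb : ∀ n, star (b n) = b n := fun n =>
    (IsSelfAdjoint.of_nonneg (CFC.sqrt_nonneg _)).star_eq
  have hws : ∀ n, star (w n) = (a n : Unitization ℂ C) - Complex.I • b n := fun n => by
    show star ((a n : Unitization ℂ C) + Complex.I • b n) = _
    rw [star_add, star_smul, hb, (hsa n).star_eq]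
    simp [sub_eq_add_neg]
  have hww : ∀ n, w n + star (w n) = (2 : ℂ) • (a n : Unitization ℂ C) := fun n => by
    rw [hws, two_smul]
    show (a n : Unitization ℂ C) + Complex.I • b n + ((a n : Unitization ℂ C) - Complex.I • b n) = _
    abel
  -- commutation
  have hca : ∀ m n, Commute (a m : Unitization ℂ C) (a n : Unitization ℂ C) := fun m n => by
    rcases eq_or_ne m n with rfl | h
    · exact Commute.refl _
    · show (a m : Unitization ℂ C) * (a n : Unitization ℂ C) = a n * a m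
      rw [← Unitization.inr_mul, ← Unitization.inr_mul, ha3 m n h, ha3 n m (Ne.symm h)]
  have hcb : ∀ m n, Commute (b m) (a n : Unitization ℂ C) := fun m n => by
    have h1 : Commute (1 - ((a m : C) : Unitization ℂ C) ^ 2) (a n : Unitization ℂ C) :=
      (Commute.one_left _).sub_left ((hca m n).pow_left 2)
    exact h1.cfcₙ_nnreal _
  have hcbb : ∀ m n, Commute (b m) (b n) := fun m n => by
    have h1 : Commute (1 - ((a m : C) : Unitization ℂ C) ^ 2) (b n) :=
      (Commute.one_left _).sub_left ((hcb n m).symm.pow_left 2)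
    exact h1.cfcₙ_nnreal _
  have hcw : ∀ m n, w m * w n = w n * w m := fun m n => by
    have h1 : Commute (w m) (w n) := by
      refine Commute.add_left ?_ ?_
      · exact (hca m n).add_right ((hcb n m).symm.smul_right _)
      · exact (((hcb m n).smul_left _).add_right (((hcbb m n).smul_left _).smul_right _))
    exact h1
  set L0 : ℝ := (1 + 2 * ‖σ‖) with hL0
  have hL01 : 1 ≤ L0 := by rw [hL0]; linarith [norm_nonneg σ]
  let 𝒢 : Set (K →L[ℂ] K) := {g | ∃ z ∈ unitary (Unitization ℂ C), g = ext1 σ z}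
  have hnu : ∀ z ∈ unitary (Unitization ℂ C), ∀ x : K, ‖ext1 σ z x‖ ≤ L0 * ‖x‖ := by
    intro z hz x
    have h1 : ‖z‖ ≤ 1 := (CStarRing.norm_of_mem_unitary hz).le
    refine (ext1_norm σ z x).trans ?_
    gcongr
    calc L0 * ‖z‖ ≤ L0 * 1 := by gcongr
      _ = L0 := mul_one _
  obtain ⟨S, R, hSR, hRS, hst⟩ := exists_unitarisation 𝒢 ⟨1, one_mem _, (ext1_one σ).symm⟩ (L0 ^ 2)
    (one_le_pow₀ hL01)
    (by
      rintro _ ⟨z, hz, rfl⟩ x
      rw [← mul_pow]
      exact pow_le_pow_left₀ (norm_nonneg _) (hnu z hz x) 2)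
    (by
      rintro _ ⟨z, hz, rfl⟩ x
      rw [← mul_pow]
      refine pow_le_pow_left₀ (norm_nonneg _) ?_ 2
      have h1 := hnu (star z) (Unitary.star_mem hz) (ext1 σ z x)
      have h2 : ext1 σ (star z) (ext1 σ z x) = x := by
        have h3 : ext1 σ (star z) * ext1 σ z = 1 := by
          rw [← ext1_mul σ hσ, Unitary.star_mul_self_of_mem hz, ext1_one]
        exact congrArg (fun f : K →L[ℂ] K => f x) h3
      rwa [h2] at h1)
    (fun n => ext1 σ (w n)) (fun n => ext1 σ (star (w n)))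
    (by
      rintro n _ ⟨z, hz, rfl⟩
      exact ⟨w n * z, mul_mem (hw n) hz, (ext1_mul σ hσ _ _).symm⟩)
    (fun m n => by rw [← ext1_mul σ hσ, hcw, ext1_mul σ hσ])
    (fun n => by rw [← ext1_mul σ hσ, Unitary.mul_star_self_of_mem (hw n), ext1_one])
  refine ⟨S, R, hSR, hRS, fun m => ?_, fun m => ?_⟩
  all_goals
    have e1 : S * ext1 σ (w m) * R + S * ext1 σ (star (w m)) * R = (2 : ℂ) • (S * σ (a m) * R) := by
      rw [← add_mul, ← mul_add, ← ext1_add, hww]
      have e2 : ext1 σ ((2 : ℂ) • (a m : Unitization ℂ C)) = (2 : ℂ) • σ (a m) := by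
        rw [two_smul, ext1_add, ext1_inr, two_smul]
      rw [e2, mul_smul_comm, smul_mul_assoc]
    have e3 : star (S * ext1 σ (w m) * R) = S * ext1 σ (star (w m)) * R := hst m
    have e4 : star (S * ext1 σ (star (w m)) * R) = S * ext1 σ (w m) * R := by
      rw [← e3, star_star]
    have e5 : S * σ (a m) * R = (2⁻¹ : ℂ) • (S * ext1 σ (w m) * R + S * ext1 σ (star (w m)) * R) := by
      rw [e1, smul_smul]; norm_num
  · rw [e5, star_smul, star_add, e3, e4, add_comm]
    congr 1
    simp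
  · have e6 : (S * ext1 σ (w m) * R) * (S * ext1 σ (star (w m)) * R) = 1 := by
      calc (S * ext1 σ (w m) * R) * (S * ext1 σ (star (w m)) * R) =
            S * ext1 σ (w m) * (R * S) * (ext1 σ (star (w m)) * R) := by simp only [mul_assoc]
        _ = S * (ext1 σ (w m) * ext1 σ (star (w m))) * R := by
            rw [hRS, mul_one]; simp only [mul_assoc]
        _ = 1 := by
            rw [← ext1_mul σ hσ, Unitary.mul_star_self_of_mem (hw m), ext1_one, mul_one, hSR]
    have e7 : ‖S * ext1 σ (star (w m)) * R‖ ≤ 1 := by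
      have h1 := CStarRing.norm_star_mul_self (x := S * ext1 σ (star (w m)) * R)
      rw [e4, e6] at h1
      have h2 : ‖(1 : K →L[ℂ] K)‖ ≤ 1 := ContinuousLinearMap.norm_id_le
      by_contra h3
      push Not at h3
      nlinarith
    have e8 : ‖S * ext1 σ (w m) * R‖ ≤ 1 := by
      rw [← norm_star, e3]; exact e7
    rw [e5, norm_smul]
    have h4 := norm_add_le (S * ext1 σ (w m) * R) (S * ext1 σ (star (w m)) * R)
    have h5 : ‖(2⁻¹ : ℂ)‖ = 2⁻¹ := by norm_num
    rw [h5]
    linarith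

theorem not_lifts_represented {A C : Type u} [NonUnitalNormedRing A] [NormedSpace ℂ A]
    [IsScalarTower ℂ A A] [SMulCommClass ℂ A A] [NonUnitalCStarAlgebra C]
    (hC : ¬ FiniteDimensional ℂ C) (K : Type u) [NormedAddCommGroup K]
    [InnerProductSpace ℂ K] [CompleteSpace K] (i : C →L[ℂ] A) (π : A →L[ℂ] K →L[ℂ] K)
    (hi : ∀ x y, i (x * y) = i x * i y) (hπ : ∀ a b, π (a * b) = π a * π b)
    (hinj : ∀ x, π (i x) = 0 → x = 0) : ¬ Lifts A := by
  intro hL
  obtain ⟨a, b, ha1, ha2, hb, hab, ha3⟩ := exists_orth C hC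
  obtain ⟨S, R, hSR, hRS, hst, hnm⟩ := exists_similarity_cstar (π.comp i)
    (fun x y => by
      show π (i (x * y)) = π (i x) * π (i y)
      rw [hi, hπ]) a ha1 ha2 ha3
  have hst' : ∀ m, star (S * π (i (a m)) * R) = S * π (i (a m)) * R := hst
  have hnm' : ∀ m, ‖S * π (i (a m)) * R‖ ≤ 1 := hnm
  let φ : A →L[ℂ] (K →L[ℂ] K) := LinearMap.mkContinuous
    { toFun := fun a => S * π a * R
      map_add' := fun a b => by rw [map_add, mul_add, add_mul]
      map_smul' := fun c a => by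
        rw [map_smul, mul_smul_comm, smul_mul_assoc]; rfl } (‖S‖ * ‖π‖ * ‖R‖) (fun a => by
      show ‖S * π a * R‖ ≤ ‖S‖ * ‖π‖ * ‖R‖ * ‖a‖
      calc ‖S * π a * R‖ ≤ ‖S‖ * ‖π a‖ * ‖R‖ := (norm_mul_le _ _).trans (by
            gcongr; exact norm_mul_le _ _)
        _ ≤ ‖S‖ * (‖π‖ * ‖a‖) * ‖R‖ := by gcongr; exact π.le_opNorm a
        _ = ‖S‖ * ‖π‖ * ‖R‖ * ‖a‖ := by ring)
  have hφa : ∀ a, φ a = S * π a * R := fun a => rfl
  have hφ : ∀ a b, φ (a * b) = φ a * φ b := fun a b => by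
    rw [hφa, hφa, hφa, hπ]
    calc S * (π a * π b) * R = S * π a * (R * S) * (π b * R) := by
          rw [hRS, mul_one]; simp only [mul_assoc]
      _ = S * π a * R * (S * π b * R) := by simp only [mul_assoc]
  obtain ⟨d, hd⟩ := exists_data_orth (K →L[ℂ] K) (fun n => φ (i (a n))) (fun n => φ (i (b n)))
    (fun n => hst' n) (fun n => hnm' n)
    (fun n h => hb n (hinj _ (by
      have h1 : R * (S * π (i (b n)) * R) * S = π (i (b n)) := by
        calc R * (S * π (i (b n)) * R) * S = (R * S) * π (i (b n)) * (R * S) := by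
              simp only [mul_assoc]
          _ = π (i (b n)) := by rw [hRS, one_mul, mul_one]
      have h2 : S * π (i (b n)) * R = 0 := h
      rw [← h1, h2, mul_zero, zero_mul])))
    (fun n => by rw [← hφ, ← hi, hab])
    (fun m n hmn => by rw [← hφ, ← hi, ha3 m n hmn, map_zero, map_zero])
  refine core_sandwich d φ hφ (fun n => i (a n)) (fun n => by rw [hd])
    (fun m n hmn => by
      show i (a m) * i (a n) = 0
      rw [← hi, ha3 m n hmn, map_zero])
    (max 1 (max ‖φ‖ ‖i‖)) (le_max_left _ _) (fun x => ?_) (fun s c hc => ?_) hL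
  · refine (φ.le_opNorm x).trans ?_
    gcongr
    exact (le_max_left _ _).trans (le_max_right _ _)
  · have h1 : ∑ n ∈ s, c n • i (a n) = i (∑ n ∈ s, c n • a n) := by
      rw [map_sum]
      exact Finset.sum_congr rfl fun n _ => by rw [map_smul]
    rw [h1]
    have h2 := J5.norm_orth_sum_le C a ha1 ha2 ha3 s c hc
    refine (i.le_opNorm _).trans ?_
    calc ‖i‖ * ‖∑ n ∈ s, c n • a n‖ ≤ ‖i‖ * 1 := by gcongr
      _ = ‖i‖ := mul_one _
      _ ≤ _ := (le_max_right _ _).trans (le_max_right _ _)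

theorem dims_represented {A C : Type u} [NonUnitalNormedRing A] [NormedSpace ℂ A]
    [IsScalarTower ℂ A A] [SMulCommClass ℂ A A] [CompleteSpace A] [NonUnitalCStarAlgebra C]
    (hC : ¬ FiniteDimensional ℂ C) (K : Type u) [NormedAddCommGroup K]
    [InnerProductSpace ℂ K] [CompleteSpace K] (i : C →L[ℂ] A) (π : A →L[ℂ] K →L[ℂ] K)
    (hi : ∀ x y, i (x * y) = i x * i y) (hπ : ∀ a b, π (a * b) = π a * π b)
    (hinj : ∀ x, π (i x) = 0 → x = 0) : 1 < dg A ∧ 1 < db A :=
  ⟨not_le.1 fun h => not_lifts_represented hC K i π hi hπ hinj (lifts_of_dg_le A h),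
    not_le.1 fun h => not_lifts_represented hC K i π hi hπ hinj (lifts_of_db_le A h)⟩

end Pool.Agent.Y268.GD
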