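import Mathlib

set_option autoImplicit false

/-!
Unitarisation of unconditional sequences of orthogonal idempotents on a Hilbert space.
-/

namespace Pool.Agent.Y268.GD

open scoped InnerProductSpace
open Filter Topology

universe u

variable {K : Type u} [NormedAddCommGroup K] [InnerProductSpace ℂ K]

/-- averaging over signs, upper bound -/
theorem sign_upper (n : ℕ) : ∀ (v : ℕ → K) (w : K) (R : ℝ),
    (∀ ε : ℕ → ℂ, (∀ k, ε k = 1 ∨ ε k = -1) → ‖w + ∑ k ∈ Finset.range n, ε k • v k‖ ^ 2 ≤ R) →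
    ‖w‖ ^ 2 + ∑ k ∈ Finset.range n, ‖v k‖ ^ 2 ≤ R := by
  induction n with
  | zero => intro v w R h; simpa using h (fun _ => 1) (fun _ => Or.inl rfl)
  | succ n ih =>
    intro v w R h
    have key : ∀ t : ℂ, (t = 1 ∨ t = -1) →
        ‖w + t • v n‖ ^ 2 + ∑ k ∈ Finset.range n, ‖v k‖ ^ 2 ≤ R := by
      intro t ht
      refine ih v (w + t • v n) R fun ε hε => ?_
      have := h (Function.update ε n t) (fun k => by
        by_cases hk : k = n
        · subst hk; rw [Function.update_self]; exact ht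
        · rw [Function.update_of_ne hk]; exact hε k)
      rw [Finset.sum_range_succ, Function.update_self] at this
      have e : ∑ k ∈ Finset.range n, Function.update ε n t k • v k =
          ∑ k ∈ Finset.range n, ε k • v k :=
        Finset.sum_congr rfl fun k hk => by rw [Function.update_of_ne (Finset.mem_range.1 hk).ne]
      rw [e] at this
      rw [show w + t • v n + ∑ k ∈ Finset.range n, ε k • v k =
        w + (∑ k ∈ Finset.range n, ε k • v k + t • v n) by abel]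
      exact this
    have h1 := key 1 (Or.inl rfl)
    have h2 := key (-1) (Or.inr rfl)
    rw [one_smul] at h1
    rw [neg_one_smul, ← sub_eq_add_neg] at h2
    have h3 := parallelogram_law_with_norm ℂ w (v n)
    rw [Finset.sum_range_succ]
    nlinarith

/-- averaging over signs, lower bound -/
theorem sign_lower (n : ℕ) : ∀ (v : ℕ → K) (w : K) (R : ℝ),
    (∀ ε : ℕ → ℂ, (∀ k, ε k = 1 ∨ ε k = -1) → R ≤ ‖w + ∑ k ∈ Finset.range n, ε k • v k‖ ^ 2) →
    R ≤ ‖w‖ ^ 2 + ∑ k ∈ Finset.range n, ‖v k‖ ^ 2 := by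
  induction n with
  | zero => intro v w R h; simpa using h (fun _ => 1) (fun _ => Or.inl rfl)
  | succ n ih =>
    intro v w R h
    have key : ∀ t : ℂ, (t = 1 ∨ t = -1) →
        R ≤ ‖w + t • v n‖ ^ 2 + ∑ k ∈ Finset.range n, ‖v k‖ ^ 2 := by
      intro t ht
      refine ih v (w + t • v n) R fun ε hε => ?_
      have := h (Function.update ε n t) (fun k => by
        by_cases hk : k = n
        · subst hk; rw [Function.update_self]; exact ht
        · rw [Function.update_of_ne hk]; exact hε k)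
      rw [Finset.sum_range_succ, Function.update_self] at this
      have e : ∑ k ∈ Finset.range n, Function.update ε n t k • v k =
          ∑ k ∈ Finset.range n, ε k • v k :=
        Finset.sum_congr rfl fun k hk => by rw [Function.update_of_ne (Finset.mem_range.1 hk).ne]
      rw [e] at this
      rw [show w + t • v n + ∑ k ∈ Finset.range n, ε k • v k =
        w + (∑ k ∈ Finset.range n, ε k • v k + t • v n) by abel]
      exact this
    have h1 := key 1 (Or.inl rfl)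
    have h2 := key (-1) (Or.inr rfl)
    rw [one_smul] at h1
    rw [neg_one_smul, ← sub_eq_add_neg] at h2
    have h3 := parallelogram_law_with_norm ℂ w (v n)
    rw [Finset.sum_range_succ]
    nlinarith

/-- the invariant forms -/
noncomputable def Fn (e : ℕ → K →L[ℂ] K) (n : ℕ) (x y : K) : ℂ :=
  ⟪x - ∑ k ∈ Finset.range n, e k x, y - ∑ k ∈ Finset.range n, e k y⟫_ℂ +
    ∑ k ∈ Finset.range n, ⟪e k x, e k y⟫_ℂ

theorem Fn_add_left (e : ℕ → K →L[ℂ] K) (n : ℕ) (x x' y : K) :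
    Fn e n (x + x') y = Fn e n x y + Fn e n x' y := by
  simp only [Fn, map_add, Finset.sum_add_distrib, inner_add_left, inner_sub_left]
  ring

theorem Fn_smul_left (e : ℕ → K →L[ℂ] K) (n : ℕ) (c : ℂ) (x y : K) :
    Fn e n (c • x) y = (starRingEnd ℂ) c * Fn e n x y := by
  simp only [Fn, map_smul, ← Finset.smul_sum, ← smul_sub, inner_smul_left, ← Finset.mul_sum]
  ring

theorem Fn_conj (e : ℕ → K →L[ℂ] K) (n : ℕ) (x y : K) :
    (starRingEnd ℂ) (Fn e n x y) = Fn e n y x := by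
  simp only [Fn, map_add, map_sum, inner_conj_symm]

theorem Fn_self (e : ℕ → K →L[ℂ] K) (n : ℕ) (x : K) :
    Fn e n x x = ((‖x - ∑ k ∈ Finset.range n, e k x‖ ^ 2 +
      ∑ k ∈ Finset.range n, ‖e k x‖ ^ 2 : ℝ) : ℂ) := by
  simp only [Fn, inner_self_eq_norm_sq_to_K]
  push_cast
  rfl

theorem Fn_inv (e : ℕ → K →L[ℂ] K) (he : ∀ n x, e n (e n x) = e n x)
    (ho : ∀ m n x, m ≠ n → e m (e n x) = 0) (n m : ℕ) (hm : m < n) (x y : K) :
    Fn e n (e m x) y = ⟪e m x, e m y⟫_ℂ := by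
  have h1 : ∑ k ∈ Finset.range n, e k (e m x) = e m x := by
    rw [Finset.sum_eq_single m (fun k _ hk => ho k m x hk)
      (fun h => absurd (Finset.mem_range.2 hm) h), he]
  have h2 : ∑ k ∈ Finset.range n, ⟪e k (e m x), e k y⟫_ℂ = ⟪e m x, e m y⟫_ℂ := by
    rw [Finset.sum_eq_single m (fun k _ hk => by rw [ho k m x hk, inner_zero_left])
      (fun h => absurd (Finset.mem_range.2 hm) h), he]
  rw [Fn, h1, h2, sub_self, inner_zero_left, zero_add]

/-- bounds for the forms -/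
theorem Fn_bounds (e : ℕ → K →L[ℂ] K) (he : ∀ n x, e n (e n x) = e n x)
    (ho : ∀ m n x, m ≠ n → e m (e n x) = 0) (M : ℝ) (hM : 0 ≤ M)
    (hb : ∀ (s : Finset ℕ) (c : ℕ → ℂ), (∀ n ∈ s, ‖c n‖ ≤ 1) →
      ∀ x, ‖∑ n ∈ s, c n • e n x‖ ≤ M * ‖x‖) (n : ℕ) (x : K) :
    (‖x - ∑ k ∈ Finset.range n, e k x‖ ^ 2 + ∑ k ∈ Finset.range n, ‖e k x‖ ^ 2 ≤
      ((1 + 2 * M) * ‖x‖) ^ 2) ∧
    ‖x‖ ^ 2 ≤ (1 + 2 * M) ^ 2 *
      (‖x - ∑ k ∈ Finset.range n, e k x‖ ^ 2 + ∑ k ∈ Finset.range n, ‖e k x‖ ^ 2) := by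
  -- the reflections
  let u : (ℕ → ℂ) → K → K := fun ε y =>
    y - ∑ k ∈ Finset.range n, e k y + ∑ k ∈ Finset.range n, ε k • e k y
  have hu : ∀ ε : ℕ → ℂ, (∀ k, ε k = 1 ∨ ε k = -1) → ∀ y, ‖u ε y‖ ≤ (1 + 2 * M) * ‖y‖ := by
    intro ε hε y
    have h1 : ‖∑ k ∈ Finset.range n, (1 : ℂ) • e k y‖ ≤ M * ‖y‖ :=
      hb _ (fun _ => 1) (fun _ _ => by simp) y
    have h2 : ‖∑ k ∈ Finset.range n, ε k • e k y‖ ≤ M * ‖y‖ :=
      hb _ ε (fun k _ => by rcases hε k with h | h <;> rw [h] <;> simp) y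
    simp only [one_smul] at h1
    calc ‖u ε y‖ ≤ ‖y - ∑ k ∈ Finset.range n, e k y‖ + ‖∑ k ∈ Finset.range n, ε k • e k y‖ :=
          norm_add_le _ _
      _ ≤ (‖y‖ + ‖∑ k ∈ Finset.range n, e k y‖) + ‖∑ k ∈ Finset.range n, ε k • e k y‖ := by
          gcongr; exact norm_sub_le _ _
      _ ≤ (‖y‖ + M * ‖y‖) + M * ‖y‖ := by gcongr
      _ = (1 + 2 * M) * ‖y‖ := by ring
  have hE : ∀ (j : ℕ), j < n → ∀ y, e j (∑ k ∈ Finset.range n, e k y) = e j y := by
    intro j hj y
    rw [map_sum, Finset.sum_eq_single j (fun k _ hk => ho j k y (Ne.symm hk))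
      (fun h => absurd (Finset.mem_range.2 hj) h), he]
  have hEε : ∀ (ε : ℕ → ℂ) (j : ℕ), j < n → ∀ y,
      e j (∑ k ∈ Finset.range n, ε k • e k y) = ε j • e j y := by
    intro ε j hj y
    rw [map_sum, Finset.sum_eq_single j
      (fun k _ hk => by rw [map_smul, ho j k y (Ne.symm hk), smul_zero])
      (fun h => absurd (Finset.mem_range.2 hj) h), map_smul, he]
  have huu : ∀ ε : ℕ → ℂ, (∀ k, ε k = 1 ∨ ε k = -1) → ∀ y, u ε (u ε y) = y := by
    intro ε hε y
    have h1 : ∀ j ∈ Finset.range n, e j (u ε y) = ε j • e j y := by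
      intro j hj
      have hj' := Finset.mem_range.1 hj
      show e j (y - ∑ k ∈ Finset.range n, e k y + ∑ k ∈ Finset.range n, ε k • e k y) = _
      rw [map_add, map_sub, hE j hj', hEε ε j hj', sub_self, zero_add]
    have h2 : ∑ k ∈ Finset.range n, e k (u ε y) = ∑ k ∈ Finset.range n, ε k • e k y :=
      Finset.sum_congr rfl h1
    have h3 : ∑ k ∈ Finset.range n, ε k • e k (u ε y) = ∑ k ∈ Finset.range n, e k y := by
      refine Finset.sum_congr rfl fun k hk => ?_
      rw [h1 k hk, smul_smul]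
      rcases hε k with h | h <;> rw [h] <;> simp
    show u ε y - ∑ k ∈ Finset.range n, e k (u ε y) + ∑ k ∈ Finset.range n, ε k • e k (u ε y) = y
    rw [h2, h3]
    show y - ∑ k ∈ Finset.range n, e k y + ∑ k ∈ Finset.range n, ε k • e k y -
      ∑ k ∈ Finset.range n, ε k • e k y + ∑ k ∈ Finset.range n, e k y = y
    abel
  constructor
  · refine sign_upper n (fun k => e k x) (x - ∑ k ∈ Finset.range n, e k x) _ fun ε hε => ?_
    have := hu ε hε x
    exact pow_le_pow_left₀ (norm_nonneg _) this 2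
  · have h1 : ‖x‖ ^ 2 / (1 + 2 * M) ^ 2 ≤ ‖x - ∑ k ∈ Finset.range n, e k x‖ ^ 2 +
        ∑ k ∈ Finset.range n, ‖e k x‖ ^ 2 := by
      refine sign_lower n (fun k => e k x) (x - ∑ k ∈ Finset.range n, e k x) _ fun ε hε => ?_
      have h2 := hu ε hε (u ε x)
      rw [huu ε hε] at h2
      rw [div_le_iff₀ (by positivity), mul_comm, ← mul_pow]
      exact pow_le_pow_left₀ (norm_nonneg _) h2 2
    rw [div_le_iff₀ (by positivity)] at h1
    linarith

end Pool.Agent.Y268.GD
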