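import Mathlib
import Pool.Agent.Y268.GD.U1

set_option autoImplicit false

/-!
Unitarisation: the limit form, the positive operator and its square root.
-/

namespace Pool.Agent.Y268.GD

open scoped InnerProductSpace
open Filter Topology

universe u

variable {K : Type u} [NormedAddCommGroup K] [InnerProductSpace ℂ K]

theorem Fn_norm_le (e : ℕ → K →L[ℂ] K) (n : ℕ) (R : ℝ)
    (hR : ∀ x : K, ‖x - ∑ k ∈ Finset.range n, e k x‖ ^ 2 + ∑ k ∈ Finset.range n, ‖e k x‖ ^ 2 ≤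
      R * ‖x‖ ^ 2) (x y : K) : ‖Fn e n x y‖ ≤ R * (‖x‖ ^ 2 + ‖y‖ ^ 2) / 2 := by
  have h1 : ‖Fn e n x y‖ ≤ ‖x - ∑ k ∈ Finset.range n, e k x‖ * ‖y - ∑ k ∈ Finset.range n, e k y‖ +
      ∑ k ∈ Finset.range n, ‖e k x‖ * ‖e k y‖ := by
    refine (norm_add_le _ _).trans (add_le_add (norm_inner_le_norm _ _) ?_)
    exact (norm_sum_le _ _).trans (Finset.sum_le_sum fun k _ => norm_inner_le_norm _ _)
  have h2 : ∑ k ∈ Finset.range n, ‖e k x‖ * ‖e k y‖ ≤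
      ∑ k ∈ Finset.range n, (‖e k x‖ ^ 2 / 2 + ‖e k y‖ ^ 2 / 2) :=
    Finset.sum_le_sum fun k _ => by nlinarith [sq_nonneg (‖e k x‖ - ‖e k y‖)]
  rw [Finset.sum_add_distrib, ← Finset.sum_div, ← Finset.sum_div] at h2
  have h3 := hR x
  have h4 := hR y
  nlinarith [sq_nonneg (‖x - ∑ k ∈ Finset.range n, e k x‖ - ‖y - ∑ k ∈ Finset.range n, e k y‖)]

/-- A limit form. -/
theorem exists_form (e : ℕ → K →L[ℂ] K) (he : ∀ n x, e n (e n x) = e n x)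
    (ho : ∀ m n x, m ≠ n → e m (e n x) = 0) (M : ℝ) (hM : 0 ≤ M)
    (hb : ∀ (s : Finset ℕ) (c : ℕ → ℂ), (∀ n ∈ s, ‖c n‖ ≤ 1) →
      ∀ x, ‖∑ n ∈ s, c n • e n x‖ ≤ M * ‖x‖) :
    ∃ G : K → K → ℂ, (∀ x x' y, G (x + x') y = G x y + G x' y) ∧
      (∀ (c : ℂ) x y, G (c • x) y = (starRingEnd ℂ) c * G x y) ∧
      (∀ x y, (starRingEnd ℂ) (G x y) = G y x) ∧
      (∀ m x y, G (e m x) y = ⟪e m x, e m y⟫_ℂ) ∧
      (∀ x y, ‖G x y‖ ≤ (1 + 2 * M) ^ 2 * (‖x‖ ^ 2 + ‖y‖ ^ 2) / 2) ∧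
      (∀ x, ‖x‖ ^ 2 ≤ (1 + 2 * M) ^ 2 * (G x x).re) := by
  have hB := Fn_bounds e he ho M hM hb
  have hR : ∀ n (x : K), ‖x - ∑ k ∈ Finset.range n, e k x‖ ^ 2 +
      ∑ k ∈ Finset.range n, ‖e k x‖ ^ 2 ≤ (1 + 2 * M) ^ 2 * ‖x‖ ^ 2 := fun n x => by
    have := (hB n x).1
    rwa [mul_pow] at this
  have hlim : ∀ x y, ∃ l : ℂ, Tendsto (fun n => Fn e n x y) (hyperfilter ℕ : Filter ℕ) (nhds l) := by
    intro x y
    have hc : IsCompact (Metric.closedBall (0 : ℂ) ((1 + 2 * M) ^ 2 * (‖x‖ ^ 2 + ‖y‖ ^ 2) / 2)) :=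
      isCompact_closedBall _ _
    have h1 : ∀ n, Fn e n x y ∈
        Metric.closedBall (0 : ℂ) ((1 + 2 * M) ^ 2 * (‖x‖ ^ 2 + ‖y‖ ^ 2) / 2) := fun n => by
      rw [mem_closedBall_zero_iff]
      exact Fn_norm_le e n _ (hR n) x y
    obtain ⟨l, _, hl⟩ := hc.ultrafilter_le_nhds ((hyperfilter ℕ).map fun n => Fn e n x y) (by
      rw [le_principal_iff, Ultrafilter.coe_map, Filter.mem_map]
      exact Filter.univ_mem' h1)
    exact ⟨l, hl⟩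
  choose G hG using hlim
  refine ⟨G, fun x x' y => ?_, fun c x y => ?_, fun x y => ?_, fun m x y => ?_, fun x y => ?_,
    fun x => ?_⟩
  · refine tendsto_nhds_unique (hG _ _) (((hG x y).add (hG x' y)).congr fun n => ?_)
    rw [Fn_add_left]
  · refine tendsto_nhds_unique (hG _ _) (((hG x y).const_mul _).congr fun n => ?_)
    rw [Fn_smul_left]
  · refine tendsto_nhds_unique ((Complex.continuous_conj.tendsto _).comp (hG x y)) ?_
    refine (hG y x).congr fun n => ?_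
    exact (Fn_conj e n x y).symm
  · refine tendsto_nhds_unique (hG _ _) (tendsto_const_nhds.congr' ?_)
    have h1 : ∀ᶠ n in (hyperfilter ℕ : Filter ℕ), m < n := by
      refine Nat.hyperfilter_le_atTop (eventually_gt_atTop m)
    filter_upwards [h1] with n hn
    exact (Fn_inv e he ho n m hn x y).symm
  · exact le_of_tendsto (hG x y).norm (Filter.Eventually.of_forall fun n =>
      Fn_norm_le e n _ (hR n) x y)
  · have h1 : Tendsto (fun n => (1 + 2 * M) ^ 2 * (Fn e n x x).re) (hyperfilter ℕ : Filter ℕ)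
        (nhds ((1 + 2 * M) ^ 2 * (G x x).re)) :=
      ((Complex.continuous_re.tendsto _).comp (hG x x)).const_mul _
    refine ge_of_tendsto h1 (Filter.Eventually.of_forall fun n => ?_)
    rw [Fn_self, Complex.ofReal_re]
    exact (hB n x).2

/-- The positive invertible operator. -/
theorem exists_pos_op [CompleteSpace K] (e : ℕ → K →L[ℂ] K) (he : ∀ n x, e n (e n x) = e n x)
    (ho : ∀ m n x, m ≠ n → e m (e n x) = 0) (M : ℝ) (hM : 0 ≤ M)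
    (hb : ∀ (s : Finset ℕ) (c : ℕ → ℂ), (∀ n ∈ s, ‖c n‖ ≤ 1) →
      ∀ x, ‖∑ n ∈ s, c n • e n x‖ ≤ M * ‖x‖) :
    ∃ T : K →L[ℂ] K, 0 ≤ T ∧ IsUnit T ∧ ∀ m, star (e m) * T = T * e m := by
  obtain ⟨G, hadd, hsm, hcj, hinv, hle, hge⟩ := exists_form e he ho M hM hb
  have hadd' : ∀ x y y', G x (y + y') = G x y + G x y' := fun x y y' => by
    rw [← hcj, hadd, map_add, hcj, hcj]
  have hsm' : ∀ (c : ℂ) x y, G x (c • y) = c * G x y := fun c x y => by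
    rw [← hcj, hsm, map_mul, hcj, Complex.conj_conj]
  have h00 : ∀ y, G 0 y = 0 := fun y => by
    have := hsm 0 0 y
    rwa [zero_smul, map_zero, zero_mul] at this
  have h00' : ∀ x, G x 0 = 0 := fun x => by
    have := hsm' 0 x 0
    rwa [zero_smul, zero_mul] at this
  have hnorm : ∀ x y, ‖G x y‖ ≤ (1 + 2 * M) ^ 2 * ‖x‖ * ‖y‖ := by
    intro x y
    rcases eq_or_ne x 0 with rfl | hx
    · rw [h00]; simp
    rcases eq_or_ne y 0 with rfl | hy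
    · rw [h00']; simp
    have hx' : (‖x‖ : ℂ) ≠ 0 := by simpa using hx
    have hy' : (‖y‖ : ℂ) ≠ 0 := by simpa using hy
    have h1 := hle ((‖x‖ : ℂ)⁻¹ • x) ((‖y‖ : ℂ)⁻¹ • y)
    have h2 : ‖(‖x‖ : ℂ)⁻¹ • x‖ = 1 := by
      rw [norm_smul, norm_inv, Complex.norm_real, norm_norm]
      exact inv_mul_cancel₀ (norm_ne_zero_iff.2 hx)
    have h3 : ‖(‖y‖ : ℂ)⁻¹ • y‖ = 1 := by
      rw [norm_smul, norm_inv, Complex.norm_real, norm_norm]
      exact inv_mul_cancel₀ (norm_ne_zero_iff.2 hy)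
    rw [h2, h3, hsm, hsm', norm_mul, norm_mul, RCLike.norm_conj, norm_inv, norm_inv,
      Complex.norm_real, Complex.norm_real, norm_norm, norm_norm] at h1
    have hxp := norm_pos_iff.2 hx
    have hyp := norm_pos_iff.2 hy
    have h4 : ‖G x y‖ = ‖x‖ * ‖y‖ * (‖x‖⁻¹ * (‖y‖⁻¹ * ‖G x y‖)) := by
      field_simp
    rw [h4]
    calc ‖x‖ * ‖y‖ * (‖x‖⁻¹ * (‖y‖⁻¹ * ‖G x y‖)) ≤
          ‖x‖ * ‖y‖ * ((1 + 2 * M) ^ 2 * (1 ^ 2 + 1 ^ 2) / 2) := by gcongr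
      _ = (1 + 2 * M) ^ 2 * ‖x‖ * ‖y‖ := by ring
  let B : K →L⋆[ℂ] K →L[ℂ] ℂ := LinearMap.mkContinuous₂
    (LinearMap.mk₂'ₛₗ (starRingEnd ℂ) (RingHom.id ℂ) G hadd (fun c x y => by
      rw [hsm, smul_eq_mul]) hadd' (fun c x y => by rw [hsm', smul_eq_mul]; rfl))
    ((1 + 2 * M) ^ 2) hnorm
  have hBG : ∀ x y, B x y = G x y := fun x y => rfl
  let T : K →L[ℂ] K := InnerProductSpace.continuousLinearMapOfBilin B
  have hT : ∀ x y, ⟪T x, y⟫_ℂ = G x y := fun x y =>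
    InnerProductSpace.continuousLinearMapOfBilin_apply B x y
  have hG0 : ∀ x, 0 ≤ (G x x).re := fun x => by
    have h1 := hge x
    have h2 : (0 : ℝ) < (1 + 2 * M) ^ 2 := by positivity
    by_contra h
    push Not at h
    nlinarith [sq_nonneg ‖x‖]
  have hsym : ∀ x y, ⟪T x, y⟫_ℂ = ⟪x, T y⟫_ℂ := fun x y => by
    rw [hT, ← inner_conj_symm x (T y), hT, hcj]
  have hTpos : 0 ≤ T := by
    rw [ContinuousLinearMap.nonneg_iff_isPositive]
    refine ⟨hsym, fun x => ?_⟩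
    rw [ContinuousLinearMap.reApplyInnerSelf_apply, hT]
    exact hG0 x
  refine ⟨T, hTpos, ?_, fun m => ?_⟩
  · have hc : (0 : ℝ) < ((1 + 2 * M) ^ 2)⁻¹ := by positivity
    refine ContinuousLinearMap.isUnit_of_forall_le_norm_inner_map T
      (c := ⟨((1 + 2 * M) ^ 2)⁻¹, hc.le⟩) hc fun x => ?_
    rw [hT]
    have h1 := hge x
    have h2 : (G x x).re ≤ ‖G x x‖ := Complex.re_le_norm _
    have h3 : (0 : ℝ) < (1 + 2 * M) ^ 2 := by positivity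
    show ‖x‖ ^ 2 * ((1 + 2 * M) ^ 2)⁻¹ ≤ ‖G x x‖
    rw [← div_eq_mul_inv, div_le_iff₀ h3]
    nlinarith
  · ext x
    refine ext_inner_right ℂ fun y => ?_
    show ⟪(ContinuousLinearMap.adjoint (e m)) (T x), y⟫_ℂ = ⟪T (e m x), y⟫_ℂ
    rw [ContinuousLinearMap.adjoint_inner_left, hT, hT, hinv, ← hcj, hinv, inner_conj_symm]

/-- Unitarisation: the idempotents become self-adjoint in an equivalent inner product. -/
theorem exists_similarity [CompleteSpace K] (e : ℕ → K →L[ℂ] K) (he : ∀ n x, e n (e n x) = e n x)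
    (ho : ∀ m n x, m ≠ n → e m (e n x) = 0) (M : ℝ) (hM : 0 ≤ M)
    (hb : ∀ (s : Finset ℕ) (c : ℕ → ℂ), (∀ n ∈ s, ‖c n‖ ≤ 1) →
      ∀ x, ‖∑ n ∈ s, c n • e n x‖ ≤ M * ‖x‖) :
    ∃ S R : K →L[ℂ] K, S * R = 1 ∧ R * S = 1 ∧ ∀ m, star (S * e m * R) = S * e m * R := by
  obtain ⟨T, hT0, hTu, hTe⟩ := exists_pos_op e he ho M hM hb
  have hS0 : (0 : K →L[ℂ] K) ≤ CFC.sqrt T := CFC.sqrt_nonneg T
  have hSS : CFC.sqrt T * CFC.sqrt T = T := CFC.sqrt_mul_sqrt_self T hT0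
  have hSu : IsUnit (CFC.sqrt T) := (CFC.isUnit_sqrt_iff T hT0).2 hTu
  have hSs : star (CFC.sqrt T) = CFC.sqrt T := (IsSelfAdjoint.of_nonneg hS0).star_eq
  obtain ⟨v, hv⟩ := hSu
  have h1 : CFC.sqrt T * (↑v⁻¹ : K →L[ℂ] K) = 1 := by rw [← hv]; exact v.mul_inv
  have h2 : (↑v⁻¹ : K →L[ℂ] K) * CFC.sqrt T = 1 := by rw [← hv]; exact v.inv_mul
  have h3 : star (↑v⁻¹ : K →L[ℂ] K) = (↑v⁻¹ : K →L[ℂ] K) := by
    have h4 : star (↑v⁻¹ : K →L[ℂ] K) * CFC.sqrt T = 1 := by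
      have := congrArg star h1
      rwa [star_mul, hSs, star_one] at this
    calc star (↑v⁻¹ : K →L[ℂ] K) = star (↑v⁻¹ : K →L[ℂ] K) * (CFC.sqrt T * ↑v⁻¹) := by
          rw [h1, mul_one]
      _ = ↑v⁻¹ := by rw [← mul_assoc, h4, one_mul]
  refine ⟨CFC.sqrt T, ↑v⁻¹, h1, h2, fun m => ?_⟩
  set S := CFC.sqrt T with hS
  set R : K →L[ℂ] K := ↑v⁻¹ with hR
  rw [star_mul, star_mul, h3, hSs]
  calc R * (star (e m) * S) = R * (star (e m) * (S * S)) * R := by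
        rw [mul_assoc, mul_assoc (star (e m)), mul_assoc S S R, h1, mul_one]
    _ = R * (S * S * e m) * R := by rw [hSS, hTe]
    _ = (R * S) * (S * e m) * R := by simp only [mul_assoc]
    _ = S * e m * R := by rw [h2, one_mul]

end Pool.Agent.Y268.GD
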