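import Mathlib
import Pool.Agent.Helper133.CD.R1
import Pool.Agent.Helper133.CD.R2
import Pool.Agent.Y268.GD.S2
import Pool.Agent.Y268.GD.S3
import Pool.Agent.Y268.GD.U2

set_option autoImplicit false

/-!
Banach algebras with an unconditional sequence of orthogonal idempotents and a Hilbert space
representation which does not annihilate them.
-/

namespace Pool.Agent.Y268.GD

open Pool.Agent.Helper133.CD

universe u

theorem not_lifts_idempotents {A : Type u} [NonUnitalNormedRing A] [NormedSpace ℂ A]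
    [IsScalarTower ℂ A A] [SMulCommClass ℂ A A] (K : Type u) [NormedAddCommGroup K]
    [InnerProductSpace ℂ K] [CompleteSpace K] (π : A →L[ℂ] K →L[ℂ] K)
    (hπ : ∀ a b x, π (a * b) x = π a (π b x)) (e : ℕ → A) (he : ∀ n, e n * e n = e n)
    (ho : ∀ m n, m ≠ n → e m * e n = 0) (M : ℝ)
    (hM : ∀ (s : Finset ℕ) (c : ℕ → ℂ), (∀ n ∈ s, ‖c n‖ ≤ 1) → ‖∑ n ∈ s, c n • e n‖ ≤ M)
    (hne : ∀ n, π (e n) ≠ 0) : ¬ Lifts A := by
  intro hL
  have hM0 : 0 ≤ M := (norm_nonneg _).trans (hM ∅ (fun _ => 0) (by simp))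
  have hπ' : ∀ a b, π (a * b) = π a * π b := fun a b => ContinuousLinearMap.ext (hπ a b)
  obtain ⟨S, R, hSR, hRS, hst⟩ := exists_similarity (fun n => π (e n))
    (fun n x => by rw [← hπ, he]) (fun m n x hmn => by rw [← hπ, ho m n hmn, map_zero]; rfl)
    (‖π‖ * M) (by positivity) (fun s c hc x => by
      have h1 : ∑ n ∈ s, c n • π (e n) x = π (∑ n ∈ s, c n • e n) x := by
        rw [map_sum, ContinuousLinearMap.sum_apply]
        refine Finset.sum_congr rfl fun n _ => ?_
        rw [map_smul]; rfl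
      rw [h1]
      refine ((π _).le_opNorm x).trans ?_
      gcongr
      exact (π.le_opNorm _).trans (by gcongr; exact hM s c hc))
  let φ : A →L[ℂ] (K →L[ℂ] K) := LinearMap.mkContinuous
    { toFun := fun a => S * π a * R
      map_add' := fun a b => by rw [map_add, mul_add, add_mul]
      map_smul' := fun c a => by
        rw [map_smul, mul_smul_comm, smul_mul_assoc]; rfl } (‖S‖ * ‖π‖ * ‖R‖) (fun a => by
      show ‖S * π a * R‖ ≤ ‖S‖ * ‖π‖ * ‖R‖ * ‖a‖
      calc ‖S * π a * R‖ ≤ ‖S‖ * ‖π a‖ * ‖R‖ := (norm_mul_le _ _).trans (by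
            gcongr; exact norm_mul_le _ _)
        _ ≤ ‖S‖ * (‖π‖ * ‖a‖) * ‖R‖ := by gcongr; exact π.le_opNorm a
        _ = ‖S‖ * ‖π‖ * ‖R‖ * ‖a‖ := by ring)
  have hφa : ∀ a, φ a = S * π a * R := fun a => rfl
  have hφ : ∀ a b, φ (a * b) = φ a * φ b := fun a b => by
    rw [hφa, hφa, hφa, hπ']
    calc S * (π a * π b) * R = S * π a * (R * S) * (π b * R) := by
          rw [hRS, mul_one]; simp only [mul_assoc]
      _ = S * π a * R * (S * π b * R) := by simp only [mul_assoc]
  obtain ⟨d, hd⟩ := exists_data_orth (K →L[ℂ] K) (fun n => φ (e n)) (fun n => φ (e n))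
    (fun n => hst n)
    (fun n => by
      have h1 : φ (e n) * φ (e n) = φ (e n) := by rw [← hφ, he]
      have h2 : star (φ (e n)) = φ (e n) := hst n
      have h3 := CStarRing.norm_star_mul_self (x := φ (e n))
      rw [h2, h1] at h3
      by_contra h4
      push Not at h4
      nlinarith)
    (fun n h => hne n (by
      have h1 : R * (S * π (e n) * R) * S = π (e n) := by
        calc R * (S * π (e n) * R) * S = (R * S) * π (e n) * (R * S) := by simp only [mul_assoc]
          _ = π (e n) := by rw [hRS, one_mul, mul_one]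
      have h2 : S * π (e n) * R = 0 := h
      rw [← h1, h2, mul_zero, zero_mul]))
    (fun n => by rw [← hφ, he])
    (fun m n hmn => by rw [← hφ, ho m n hmn, map_zero])
  refine core_sandwich d φ hφ e (fun n => by rw [hd]) ho (max 1 (max ‖φ‖ M)) (le_max_left _ _)
    (fun x => ?_) (fun s c hc => ?_) hL
  · refine (φ.le_opNorm x).trans ?_
    gcongr
    exact (le_max_left _ _).trans (le_max_right _ _)
  · exact (hM s c hc).trans ((le_max_right _ _).trans (le_max_right _ _))

theorem dims_idempotents {A : Type u} [NonUnitalNormedRing A] [NormedSpace ℂ A]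
    [IsScalarTower ℂ A A] [SMulCommClass ℂ A A] [CompleteSpace A] (K : Type u)
    [NormedAddCommGroup K] [InnerProductSpace ℂ K] [CompleteSpace K] (π : A →L[ℂ] K →L[ℂ] K)
    (hπ : ∀ a b x, π (a * b) x = π a (π b x)) (e : ℕ → A) (he : ∀ n, e n * e n = e n)
    (ho : ∀ m n, m ≠ n → e m * e n = 0) (M : ℝ)
    (hM : ∀ (s : Finset ℕ) (c : ℕ → ℂ), (∀ n ∈ s, ‖c n‖ ≤ 1) → ‖∑ n ∈ s, c n • e n‖ ≤ M)
    (hne : ∀ n, π (e n) ≠ 0) : 1 < dg A ∧ 1 < db A :=
  ⟨not_le.1 fun h => not_lifts_idempotents K π hπ e he ho M hM hne (lifts_of_dg_le A h),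
    not_le.1 fun h => not_lifts_idempotents K π hπ e he ho M hM hne (lifts_of_db_le A h)⟩

end Pool.Agent.Y268.GD
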